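import Pool.Agent.H294UB.Stmts

set_option autoImplicit false

namespace H294UB.AbsH62

open H294UB

section
variable {A : Type} [CommRing A] {π : A} {n e : ℕ} {U : Set (Fin n → A)}
  {Φ : (Fin n → A) → (Fin n → A)}

omit [CommRing A] in
theorem iter_mem (hU : ∀ z ∈ U, Φ z ∈ U) (i : ℕ) : ∀ z ∈ U, Φ^[i] z ∈ U := by
  induction i with
  | zero => intro z hz; exact hz
  | succ i ih =>
    intro z hz
    rw [Function.iterate_succ_apply']
    exact hU _ (ih z hz)

theorem iter_cong (hU : ∀ z ∈ U, Φ z ∈ U)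
    (hΦ : ∀ z ∈ U, ∀ z' ∈ U, ∀ v, e + 1 ≤ v → Cong π v z' z →
      ∀ i, π ^ (v + e + 1) ∣ (Φ z' i - Φ z i) - (z' i - z i))
    {v : ℕ} (hv : e + 1 ≤ v) {z z' : Fin n → A} (hz : z ∈ U) (hz' : z' ∈ U)
    (hc : Cong π v z' z) (i : ℕ) :
    ∀ j, π ^ (v + e + 1) ∣ (Φ^[i] z' j - Φ^[i] z j) - (z' j - z j) := by
  induction i with
  | zero => intro j; simp
  | succ i ih =>
    intro j
    have hcc : Cong π v (Φ^[i] z') (Φ^[i] z) := by
      intro j
      have h1 : π ^ v ∣ (Φ^[i] z' j - Φ^[i] z j) - (z' j - z j) :=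
        (pow_dvd_pow π (by omega)).trans (ih j)
      have h2 := dvd_add h1 (hc j)
      simpa using h2
    have h3 := hΦ _ (iter_mem hU i z hz) _ (iter_mem hU i z' hz') v hv hcc j
    have h4 := dvd_add h3 (ih j)
    rw [Function.iterate_succ_apply', Function.iterate_succ_apply']
    have h5 : (Φ (Φ^[i] z') j - Φ (Φ^[i] z) j) - (z' j - z j) =
        ((Φ (Φ^[i] z') j - Φ (Φ^[i] z) j) - (Φ^[i] z' j - Φ^[i] z j)) +
        ((Φ^[i] z' j - Φ^[i] z j) - (z' j - z j)) := by ring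
    rw [h5]
    exact h4

end

end H294UB.AbsH62

open H294UB.AbsH62 in
theorem H294UB.taskAbs : H294UB.TaskAbs := by
  classical
  intro A _ _ _ π hπ n e hq U Φ hU hΦ z hz hcz m hm hper
  by_contra hne
  have hpp : Prime π := hπ.prime
  -- the minimal period
  have hperiodic : z ∈ Function.periodicPts Φ := ⟨m, hm, hper⟩
  set m0 := Function.minimalPeriod Φ z with hm0
  have hm0pos : 0 < m0 := Function.minimalPeriod_pos_of_mem_periodicPts hperiodic
  have hm01 : m0 ≠ 1 := by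
    intro h
    apply hne
    exact Function.minimalPeriod_eq_one_iff_isFixedPt.1 h
  obtain ⟨q, hqp, k, hqk⟩ : ∃ q, q.Prime ∧ ∃ k, m0 = q * k := by
    obtain ⟨q, h1, h2⟩ := Nat.exists_prime_and_dvd hm01
    exact ⟨q, h1, h2⟩
  have hk0 : 0 < k := by
    rcases Nat.eq_zero_or_pos k with h | h
    · rw [h, mul_zero] at hqk; omega
    · exact h
  have hkm : k < m0 := by
    rw [hqk]
    have := hqp.two_le
    nlinarith
  set z1 := Φ^[k] z with hz1
  have hz1U : z1 ∈ U := iter_mem hU k z hz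
  have hz1ne : z1 ≠ z := by
    intro h
    exact Function.not_isPeriodicPt_of_pos_of_lt_minimalPeriod hk0.ne' hkm h
  have hclose : ∀ i, Cong π (e + 1) (Φ^[i] z) z := by
    intro i
    induction i with
    | zero => intro j; simp
    | succ i ih =>
      intro j
      have h1 := iter_cong hU hΦ le_rfl hz (hU z hz) hcz i j
      have h2 : π ^ (e + 1) ∣ (Φ^[i] (Φ z) j - Φ^[i] z j) - (Φ z j - z j) :=
        (pow_dvd_pow π (by omega)).trans h1
      have h3 := dvd_add (dvd_add h2 (hcz j)) (ih j)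
      rw [Function.iterate_succ_apply]
      have h4 : Φ^[i] (Φ z) j - z j = ((Φ^[i] (Φ z) j - Φ^[i] z j) - (Φ z j - z j)) +
          (Φ z j - z j) + (Φ^[i] z j - z j) := by ring
      rw [h4]
      exact h3
  -- the exact order of the displacement
  obtain ⟨i1, hi1⟩ : ∃ i, z1 i ≠ z i := by
    by_contra hcon
    push Not at hcon
    exact hz1ne (funext hcon)
  have hfin : ∃ w, ¬ Cong π w z1 z := by
    obtain ⟨w, hw⟩ := FiniteMultiplicity.of_not_isUnit hπ.not_isUnit (sub_ne_zero.2 hi1)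
    exact ⟨w + 1, fun h => hw (h i1)⟩
  obtain ⟨w, hwspec, hwmin⟩ : ∃ w, ¬ Cong π w z1 z ∧ ∀ v < w, Cong π v z1 z :=
    ⟨Nat.find hfin, Nat.find_spec hfin, fun v hv => not_not.1 (Nat.find_min hfin hv)⟩
  have hew : e + 1 < w := by
    by_contra hcon
    push Not at hcon
    apply hwspec
    intro i
    exact (pow_dvd_pow π hcon).trans (hclose k i)
  obtain ⟨v, rfl⟩ : ∃ v, w = v + 1 := ⟨w - 1, by omega⟩
  have hv : e + 1 ≤ v := by omega
  have hcv : Cong π v z1 z := hwmin v (Nat.lt_succ_self v)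
  obtain ⟨i0, hi0⟩ : ∃ i, ¬ π ^ (v + 1) ∣ z1 i - z i := by
    by_contra hcon
    push Not at hcon
    exact hwspec hcon
  obtain ⟨c, hc⟩ := hcv i0
  have hcπ : ¬ π ∣ c := by
    rintro ⟨c', hc'⟩
    apply hi0
    exact ⟨c', by rw [hc, hc', pow_succ]; ring⟩
  -- the sum of the displacements
  have hterm : ∀ i, π ^ (v + e + 1) ∣ (Φ^[k * (i + 1)] z i0 - Φ^[k * i] z i0) - (z1 i0 - z i0) := by
    intro i
    have h1 := iter_cong hU hΦ hv hz hz1U hcv (k * i) i0
    have h2 : Φ^[k * i] z1 = Φ^[k * (i + 1)] z := by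
      rw [hz1, ← Function.iterate_add_apply]
      rfl
    rw [h2] at h1
    exact h1
  have hsum : π ^ (v + e + 1) ∣
      ∑ i ∈ Finset.range q, ((Φ^[k * (i + 1)] z i0 - Φ^[k * i] z i0) - (z1 i0 - z i0)) :=
    Finset.dvd_sum fun i _ => hterm i
  rw [Finset.sum_sub_distrib, Finset.sum_range_sub (fun i => Φ^[k * i] z i0), Finset.sum_const,
    Finset.card_range, nsmul_eq_mul] at hsum
  have hkq : Φ^[k * q] z = z := by
    rw [Nat.mul_comm, ← hqk]
    exact Function.isPeriodicPt_minimalPeriod Φ z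
  rw [hkq, mul_zero, Function.iterate_zero, id, sub_self, zero_sub, dvd_neg, hc] at hsum
  have h1 : π ^ (v + (e + 1)) ∣ π ^ v * ((q : A) * c) := by
    have : (q : A) * (π ^ v * c) = π ^ v * ((q : A) * c) := by ring
    rw [← this, ← add_assoc]
    exact hsum
  rw [pow_add] at h1
  have h2 : π ^ (e + 1) ∣ (q : A) * c :=
    (mul_dvd_mul_iff_left (pow_ne_zero v hπ.ne_zero)).1 h1
  exact hq q hqp (hpp.pow_dvd_of_dvd_mul_right (e + 1) hcπ h2)
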