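import Pool.Agent.H294UB.Stmts
import Pool.Agent.H936R2.Crit

set_option autoImplicit false

namespace H294UB

open MvPolynomial Pool.Agent.H936R2 Pool.Agent.H927R2.RD H294DM

lemma cnt_monIn_map {K k : Type} [Field K] [Field k] (φ : K →+* k) {n s : ℕ}
    (P : Fin n → MvPolynomial (Fin n) K) (h : MonIn s P) :
    MonIn s (fun i => MvPolynomial.map φ (P i)) := by
  intro μ hμ
  have h1 := Ideal.mem_map_of_mem (MvPolynomial.map φ) (h μ hμ)
  rw [Ideal.map_span, MvPolynomial.map_monomial, map_one, ← Set.range_comp] at h1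
  exact h1

theorem taskCnt (h : TaskFib) : TaskCnt := by
  classical
  intro N s b e he
  obtain ⟨C, hC⟩ := h N (b + e) s
  refine ⟨C, ?_⟩
  intro K _ d hd P hP hM X hX0 hXi hXp
  let k := AlgebraicClosure K
  let φ : K →+* k := algebraMap K k
  have hφ : Function.Injective φ := φ.injective
  set Pk : Fin (N + 1) → MvPolynomial (Fin (N + 1)) k := fun i => MvPolynomial.map φ (P i) with hPk
  have hPkh : ∀ i, (Pk i).IsHomogeneous d := fun i => (hP i).map φ
  have hMk : MonIn s Pk := cnt_monIn_map φ P hM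
  have hpow : d ^ b < d ^ (b + e) := Nat.pow_lt_pow_right (by omega) (by omega)
  -- scaling factors
  have hex : ∀ x : Fin (N + 1) → K, ∃ t : k, x ∈ X → (t ≠ 0 ∧
      (pt Pk)^[b + e] (fun i => t * φ (x i)) = (pt Pk)^[b] (fun i => t * φ (x i))) := by
    intro x
    by_cases hx : x ∈ X
    · obtain ⟨c, hc, hc2⟩ := hXp x hx
      have hφc : φ c ≠ 0 := by
        intro h0
        exact hc (hφ (by rw [h0, map_zero]))
      obtain ⟨t, ht⟩ := IsAlgClosed.exists_pow_nat_eq ((φ c)⁻¹ : k)
        (show 0 < d ^ (b + e) - d ^ b by omega)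
      have ht0 : t ≠ 0 := by
        intro h0
        rw [h0, zero_pow (by omega)] at ht
        exact inv_ne_zero hφc ht.symm
      refine ⟨t, fun _ => ⟨ht0, ?_⟩⟩
      rw [iterate_scale Pk d hPkh, iterate_scale Pk d hPkh]
      have e1 : ∀ (n : ℕ) (i : Fin (N + 1)), (pt Pk)^[n] (fun j => φ (x j)) i =
          φ ((pt P)^[n] x i) := fun n i => congrFun (pt_map φ P x n) i
      funext i
      rw [e1, e1, hc2]
      have e2 : t ^ d ^ (b + e) = t ^ (d ^ (b + e) - d ^ b) * t ^ d ^ b := by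
        rw [← pow_add]; congr 1; omega
      rw [e2, ht, Pi.smul_apply, smul_eq_mul, map_mul]
      have hA : (φ c)⁻¹ * φ c = 1 := inv_mul_cancel₀ hφc
      linear_combination (t ^ d ^ b * φ ((pt P)^[b] x i)) * hA
    · exact ⟨0, fun h => absurd h hx⟩
  choose t ht using hex
  let T : (Fin (N + 1) → K) → (Fin (b + e) → Fin (N + 1) → k) :=
    fun x i => (pt Pk)^[(i : ℕ)] (fun j => t x * φ (x j))
  let σ : Fin (b + e) → Fin (b + e) := fun i =>
    if h : (i : ℕ) + 1 < b + e then ⟨(i : ℕ) + 1, h⟩ else ⟨b, by omega⟩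
  have hT : ∀ y ∈ X.image T, ∀ i, pt Pk (y i) = y (σ i) := by
    intro y hy i
    rw [Finset.mem_image] at hy
    obtain ⟨x, hx, rfl⟩ := hy
    have h1 : pt Pk (T x i) = (pt Pk)^[(i : ℕ) + 1] (fun j => t x * φ (x j)) := by
      rw [Function.iterate_succ_apply']
    rw [h1]
    by_cases h2 : (i : ℕ) + 1 < b + e
    · simp only [T, σ, dif_pos h2]
    · have h3 : (i : ℕ) + 1 = b + e := by have := i.2; omega
      simp only [T, σ, dif_neg h2]
      rw [h3]
      exact (ht x hx).2
  have hinj : Set.InjOn T (X : Set (Fin (N + 1) → K)) := by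
    intro x hx y hy hxy
    have h0 : T x ⟨0, by omega⟩ = T y ⟨0, by omega⟩ := by rw [hxy]
    have h1 : ∀ j, t x * φ (x j) = t y * φ (y j) := fun j => congrFun h0 j
    have htx : t x ≠ 0 := (ht x hx).1
    have hy0 : ∃ j, y j ≠ 0 := by
      by_contra hcon
      push Not at hcon
      exact hX0 y hy (funext hcon)
    obtain ⟨j, hj⟩ := hy0
    have hφj : φ (y j) ≠ 0 := by
      intro h0
      exact hj (hφ (by rw [h0, map_zero]))
    refine hXi x hx y hy (x j / y j) ?_
    funext i
    apply hφ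
    rw [Pi.smul_apply, smul_eq_mul, map_mul, map_div₀]
    have h2 := h1 j
    have h3 := h1 i
    have h4 : t x * φ (x i) = t x * (φ (x j) / φ (y j) * φ (y i)) := by
      have hq : φ (y j) * (φ (y j))⁻¹ = 1 := mul_inv_cancel₀ hφj
      rw [h3, div_eq_mul_inv]
      linear_combination (-(t y * φ (y i))) * hq - ((φ (y j))⁻¹ * φ (y i)) * h2
    exact mul_left_cancel₀ htx h4
  have hcard := hC k d hd Pk hPkh hMk σ (X.image T) hT
  rwa [Finset.card_image_of_injOn hinj] at hcard

end H294UB
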