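import Pool.Agent.H294UB.Stmts

set_option autoImplicit false

/-! Task Fib: a uniform bound for the number of solutions of `F(x_i) = x_(σ i)`. -/

namespace H294UB

open MvPolynomial Pool.Agent.H936R2 Pool.Agent.H927R2.RD H294DM

namespace FibAux

section
variable {k : Type} [Field k] {N m : ℕ}

/-- evaluation at the tuple `x` -/
noncomputable def Ev (X : Finset (Fin m → Fin (N + 1) → k)) :
    MvPolynomial (Fin m × Fin (N + 1)) k →ₐ[k] (X → k) :=
  MvPolynomial.aeval (fun c (x : X) => x.1 c.1 c.2)

lemma Ev_apply (X : Finset (Fin m → Fin (N + 1) → k)) (p : MvPolynomial (Fin m × Fin (N + 1)) k)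
    (x : X) : Ev X p x = eval (fun c => x.1 c.1 c.2) p := by
  have h : (Pi.evalAlgHom k (fun _ : X => k) x).comp (Ev X) =
      MvPolynomial.aeval (fun c : Fin m × Fin (N + 1) => x.1 c.1 c.2) := by
    apply MvPolynomial.algHom_ext
    intro c
    simp [Ev]
  have h2 := congrArg (fun f => f p) h
  simp only [AlgHom.comp_apply, Pi.evalAlgHom_apply] at h2
  rw [h2, MvPolynomial.aeval_eq_eval]

lemma exists_indicator (X : Finset (Fin m → Fin (N + 1) → k)) (x0 : X) :
    ∃ p : MvPolynomial (Fin m × Fin (N + 1)) k, Ev X p x0 = 1 ∧ ∀ z : X, z ≠ x0 → Ev X p z = 0 := by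
  classical
  have hsep : ∀ y : X, ∃ q : MvPolynomial (Fin m × Fin (N + 1)) k,
      Ev X q x0 = 1 ∧ (y ≠ x0 → Ev X q y = 0) := by
    intro y
    by_cases hy : y = x0
    · exact ⟨1, by rw [map_one]; rfl, fun h => absurd hy h⟩
    · have : ∃ c : Fin m × Fin (N + 1), x0.1 c.1 c.2 ≠ y.1 c.1 c.2 := by
        by_contra hcon
        push Not at hcon
        apply hy
        apply Subtype.ext
        funext i j
        exact (hcon (i, j)).symm
      obtain ⟨c, hc⟩ := this
      refine ⟨MvPolynomial.C ((x0.1 c.1 c.2 - y.1 c.1 c.2)⁻¹) *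
        (MvPolynomial.X c - MvPolynomial.C (y.1 c.1 c.2)), ?_, fun _ => ?_⟩
      · rw [Ev_apply]
        simp only [map_mul, map_sub, eval_C, eval_X]
        exact inv_mul_cancel₀ (sub_ne_zero.2 hc)
      · rw [Ev_apply]
        simp only [map_mul, map_sub, eval_C, eval_X]
        rw [sub_self, mul_zero]
  choose q hq1 hq2 using hsep
  refine ⟨∏ y ∈ Finset.univ, q y, ?_, ?_⟩
  · rw [map_prod, Finset.prod_apply]
    exact Finset.prod_eq_one fun y _ => hq1 y
  · intro z hz
    rw [map_prod, Finset.prod_apply]
    exact Finset.prod_eq_zero (Finset.mem_univ z) (hq2 z hz)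

lemma Ev_surj (X : Finset (Fin m → Fin (N + 1) → k)) : Function.Surjective (Ev X) := by
  classical
  intro f
  choose p hp1 hp2 using exists_indicator X
  refine ⟨∑ x, MvPolynomial.C (f x) * p x, ?_⟩
  rw [map_sum]
  funext z
  rw [Finset.sum_apply]
  rw [Finset.sum_eq_single z]
  · rw [map_mul, Pi.mul_apply, hp1, mul_one, Ev_apply, eval_C]
  · intro y _ hyz
    rw [map_mul, Pi.mul_apply, hp2 y z (Ne.symm hyz), mul_zero]
  · intro h; exact absurd (Finset.mem_univ z) h

/-- a monomial of degree `s` in the ideal, with homogeneous coefficients -/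
lemma mon_repr {d s : ℕ} {P : Fin (N + 1) → MvPolynomial (Fin (N + 1)) k}
    (hP : ∀ i, (P i).IsHomogeneous d) (hM : MonIn s P) (ν : Fin (N + 1) →₀ ℕ) (hν : ν.degree = s) :
    d ≤ s ∧ ∃ B : Fin (N + 1) → MvPolynomial (Fin (N + 1)) k, (∀ j, (B j).IsHomogeneous (s - d)) ∧
      monomial ν (1 : k) = ∑ j, B j * P j := by
  classical
  have h1 := hM ν hν
  rw [Ideal.mem_span_range_iff_exists_fun] at h1
  obtain ⟨A, hA⟩ := h1
  have hcomp : homogeneousComponent s (monomial ν (1 : k)) = monomial ν (1 : k) := by
    have hh : (monomial ν (1 : k)).IsHomogeneous s := by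
      rw [← hν]
      exact isHomogeneous_monomial _ rfl
    rw [homogeneousComponent_of_mem hh, if_pos rfl]
  have hmul : ∀ j, homogeneousComponent s (A j * P j) =
      if d ≤ s then homogeneousComponent (s - d) (A j) * P j else 0 := by
    intro j
    conv_lhs => rw [← sum_homogeneousComponent (A j)]
    rw [Finset.sum_mul, map_sum]
    have hterm : ∀ i, homogeneousComponent s (homogeneousComponent i (A j) * P j) =
        if i + d = s then homogeneousComponent i (A j) * P j else 0 := by
      intro i
      have hh : (homogeneousComponent i (A j) * P j).IsHomogeneous (i + d) :=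
        (homogeneousComponent_isHomogeneous i (A j)).mul (hP j)
      rw [homogeneousComponent_of_mem hh]
      by_cases h : i + d = s
      · rw [if_pos h, if_pos h.symm]
      · rw [if_neg h, if_neg (Ne.symm h)]
    simp only [hterm]
    by_cases hds : d ≤ s
    · rw [if_pos hds]
      rw [Finset.sum_ite, Finset.sum_const_zero, add_zero]
      by_cases hle : s - d ∈ Finset.range ((A j).totalDegree + 1)
      · have : Finset.filter (fun i => i + d = s) (Finset.range ((A j).totalDegree + 1)) =
            {s - d} := by
          ext i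
          simp only [Finset.mem_filter, Finset.mem_singleton]
          constructor
          · rintro ⟨_, h⟩; omega
          · intro h; subst h; exact ⟨hle, by omega⟩
        rw [this, Finset.sum_singleton]
      · have : Finset.filter (fun i => i + d = s) (Finset.range ((A j).totalDegree + 1)) = ∅ := by
          ext i
          simp only [Finset.mem_filter, Finset.notMem_empty, iff_false, not_and]
          intro hi h
          apply hle
          have : s - d = i := by omega
          rw [this]; exact hi
        rw [this, Finset.sum_empty]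
        have : homogeneousComponent (s - d) (A j) = 0 := by
          apply homogeneousComponent_eq_zero
          simp only [Finset.mem_range, not_lt] at hle
          omega
        rw [this, zero_mul]
    · rw [if_neg hds]
      refine Finset.sum_eq_zero fun i _ => ?_
      rw [if_neg (by omega)]
  have hsum : monomial ν (1 : k) = ∑ j, (if d ≤ s then homogeneousComponent (s - d) (A j) * P j
      else 0) := by
    rw [← hcomp, ← hA, map_sum]
    refine Finset.sum_congr rfl fun j _ => ?_
    exact hmul j
  by_cases hds : d ≤ s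
  · refine ⟨hds, fun j => homogeneousComponent (s - d) (A j),
      fun j => homogeneousComponent_isHomogeneous _ _, ?_⟩
    rw [hsum]
    simp only [if_pos hds]
  · exfalso
    simp only [if_neg hds, Finset.sum_const_zero] at hsum
    exact one_ne_zero ((monomial_eq_zero).1 hsum)

/-- one reduction step for a monomial -/
lemma step {d s : ℕ} (hd : 2 ≤ d) {P : Fin (N + 1) → MvPolynomial (Fin (N + 1)) k}
    (hP : ∀ i, (P i).IsHomogeneous d) (hM : MonIn s P) {σ : Fin m → Fin m}
    {X : Finset (Fin m → Fin (N + 1) → k)} (hX : ∀ x ∈ X, ∀ i, pt P (x i) = x (σ i))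
    (μ : Fin m × Fin (N + 1) →₀ ℕ) (hμ : m * s < μ.degree) (c : k) :
    ∃ q : MvPolynomial (Fin m × Fin (N + 1)) k, q.totalDegree < μ.degree ∧
      Ev X (monomial μ c) = Ev X q := by
  classical
  -- a block of large degree
  have hdeg : μ.degree = ∑ i, ∑ j, μ (i, j) := by
    rw [Finsupp.degree_eq_sum, Fintype.sum_prod_type]
  obtain ⟨i, hi⟩ : ∃ i, s ≤ ∑ j, μ (i, j) := by
    by_contra hcon
    push Not at hcon
    have : ∑ i, ∑ j, μ (i, j) ≤ ∑ _i : Fin m, s := Finset.sum_le_sum fun i _ => (hcon i).le
    rw [Finset.sum_const, Finset.card_univ, Fintype.card_fin, smul_eq_mul] at this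
    omega
  -- the block exponent
  let μi : Fin (N + 1) →₀ ℕ := Finsupp.equivFunOnFinite.symm (fun j => μ (i, j))
  have hμi : s ≤ μi.degree := by
    rw [Finsupp.degree_eq_sum]
    exact hi
  obtain ⟨ν, hν1, hν2⟩ : ∃ ν ≤ μi, ν.degree = s := by
    have key : ∀ t : ℕ, t ≤ μi.degree → ∃ ν ≤ μi, ν.degree = t := by
      intro t
      induction t with
      | zero => intro _; exact ⟨0, fun _ => Nat.zero_le _, by simp⟩
      | succ t ih =>
        intro ht
        obtain ⟨ν, hν, hνt⟩ := ih (by omega)
        have hne : ν ≠ μi := by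
          intro h; rw [h] at hνt; omega
        obtain ⟨j, hj⟩ : ∃ j, ν j < μi j := by
          by_contra hcon
          push Not at hcon
          exact hne (le_antisymm hν (fun j => hcon j))
        refine ⟨ν + Finsupp.single j 1, ?_, ?_⟩
        · intro j'
          by_cases hjj : j' = j
          · subst hjj
            simp only [Finsupp.coe_add, Pi.add_apply, Finsupp.single_eq_same]
            omega
          · simp only [Finsupp.coe_add, Pi.add_apply]
            rw [Finsupp.single_eq_of_ne hjj, add_zero]
            exact hν j'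
        · rw [map_add, hνt, Finsupp.degree_single]
    exact key s hμi
  obtain ⟨hds, B, hB, hBsum⟩ := mon_repr hP hM ν hν2
  -- embedding of the block
  have hinj : Function.Injective (fun j : Fin (N + 1) => (i, j)) := fun a b h => by
    simpa using h
  let ν' : Fin m × Fin (N + 1) →₀ ℕ := ν.mapDomain (fun j => (i, j))
  have hν'deg : ν'.degree = s := by
    rw [← hν2, Finsupp.degree_eq_sum, Finsupp.degree_eq_sum, Fintype.sum_prod_type]
    rw [Finset.sum_eq_single i]
    · exact Finset.sum_congr rfl fun j _ => Finsupp.mapDomain_apply hinj ν j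
    · intro a _ ha
      refine Finset.sum_eq_zero fun j _ => ?_
      apply Finsupp.mapDomain_of_notMem_range
      rintro ⟨j', hj'⟩
      exact ha (congrArg Prod.fst hj').symm
    · intro h; exact absurd (Finset.mem_univ i) h
  have hν'le : ν' ≤ μ := by
    intro p
    obtain ⟨a, j⟩ := p
    by_cases ha : a = i
    · subst ha
      have : ν' (a, j) = ν j := Finsupp.mapDomain_apply hinj ν j
      rw [this]
      exact hν1 j
    · have : ν' (a, j) = 0 := by
        apply Finsupp.mapDomain_of_notMem_range
        rintro ⟨j', hj'⟩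
        exact ha (congrArg Prod.fst hj').symm
      rw [this]; exact Nat.zero_le _
  let q0 : MvPolynomial (Fin m × Fin (N + 1)) k :=
    ∑ j, rename (fun j => (i, j)) (B j) * MvPolynomial.X (σ i, j)
  have hq0 : q0.totalDegree ≤ s - d + 1 := by
    refine totalDegree_finsetSum_le fun j _ => ?_
    refine (totalDegree_mul _ _).trans ?_
    refine add_le_add ((totalDegree_rename_le _ _).trans ((hB j).totalDegree_le)) ?_
    rw [totalDegree_X]
  have hEv0 : Ev X (monomial ν' 1) = Ev X q0 := by
    funext x
    rw [Ev_apply, Ev_apply]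
    have e1 : (monomial ν' (1 : k)) = rename (fun j : Fin (N + 1) => (i, j)) (monomial ν 1) := by
      rw [rename_monomial]
    rw [e1, hBsum]
    simp only [q0, map_sum, map_mul, eval_X]
    refine Finset.sum_congr rfl fun j _ => ?_
    congr 1
    rw [eval_rename]
    have := congrFun (hX x.1 x.2 i) j
    simp only [pt] at this
    exact this
  refine ⟨monomial (μ - ν') c * q0, ?_, ?_⟩
  · refine lt_of_le_of_lt (totalDegree_mul _ _) ?_
    have h1 : (monomial (μ - ν') c : MvPolynomial (Fin m × Fin (N + 1)) k).totalDegree ≤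
        (μ - ν').degree := by
      refine (totalDegree_monomial_le _ _).trans (le_of_eq ?_)
      rw [Finsupp.degree_apply]
      rfl
    have h2 : (μ - ν').degree + s = μ.degree := by
      have h3 : (μ - ν') + ν' = μ := tsub_add_cancel_of_le hν'le
      rw [← hν'deg, ← map_add, h3]
    omega
  · have e1 : (monomial μ c : MvPolynomial (Fin m × Fin (N + 1)) k) =
        monomial (μ - ν') c * monomial ν' 1 := by
      rw [monomial_mul, mul_one, tsub_add_cancel_of_le hν'le]
    rw [e1, map_mul, map_mul, hEv0]

lemma reduce {d s : ℕ} (hd : 2 ≤ d) {P : Fin (N + 1) → MvPolynomial (Fin (N + 1)) k}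
    (hP : ∀ i, (P i).IsHomogeneous d) (hM : MonIn s P) {σ : Fin m → Fin m}
    {X : Finset (Fin m → Fin (N + 1) → k)} (hX : ∀ x ∈ X, ∀ i, pt P (x i) = x (σ i)) (D : ℕ) :
    ∀ p : MvPolynomial (Fin m × Fin (N + 1)) k, p.totalDegree ≤ D →
      Ev X p ∈ Submodule.span k (Set.range
        (fun μ : Fin m × Fin (N + 1) → Fin (m * s + 1) =>
          Ev X (monomial (Finsupp.equivFunOnFinite.symm (fun c => (μ c : ℕ))) 1))) := by
  classical
  induction D using Nat.strong_induction_on with
  | _ D ih =>
    intro p hp
    rw [p.as_sum, map_sum]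
    refine Submodule.sum_mem _ fun μ hμ => ?_
    have hμD : μ.degree ≤ D := by
      refine le_trans ?_ hp
      have := le_totalDegree hμ
      refine le_trans (le_of_eq ?_) this
      rw [Finsupp.degree_apply]
      rfl
    by_cases hlt : m * s < μ.degree
    · obtain ⟨q, hq, hEq⟩ := step hd hP hM hX μ hlt (coeff μ p)
      rw [hEq]
      exact ih q.totalDegree (lt_of_lt_of_le hq hμD) q le_rfl
    · push Not at hlt
      have hb : ∀ c, μ c < m * s + 1 := by
        intro c
        have h1 : μ c ≤ μ.degree := Finsupp.le_degree c μ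
        omega
      have e1 : (monomial μ (coeff μ p) : MvPolynomial (Fin m × Fin (N + 1)) k) =
          (coeff μ p) • monomial μ 1 := by
        rw [smul_monomial, smul_eq_mul, mul_one]
      rw [e1, map_smul]
      refine Submodule.smul_mem _ _ (Submodule.subset_span ⟨fun c => ⟨μ c, hb c⟩, ?_⟩)
      dsimp only
      congr 2
      ext c
      simp
end

end FibAux

theorem taskFib : TaskFib := by
  intro N m s
  refine ⟨(m * s + 1) ^ (m * (N + 1)), ?_⟩
  intro k _ d hd P hP hM σ X hX
  classical
  have htop : Submodule.span k (Set.range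
        (fun μ : Fin m × Fin (N + 1) → Fin (m * s + 1) =>
          FibAux.Ev X (monomial (Finsupp.equivFunOnFinite.symm (fun c => (μ c : ℕ))) 1))) = ⊤ := by
    rw [eq_top_iff]
    intro f _
    obtain ⟨p, rfl⟩ := FibAux.Ev_surj X f
    exact FibAux.reduce hd hP hM hX p.totalDegree p le_rfl
  have h1 := finrank_range_le_card (R := k)
    (fun μ : Fin m × Fin (N + 1) → Fin (m * s + 1) =>
          FibAux.Ev X (monomial (Finsupp.equivFunOnFinite.symm (fun c => (μ c : ℕ))) 1))
  unfold Set.finrank at h1
  rw [htop, finrank_top, Module.finrank_fintype_fun_eq_card, Fintype.card_coe] at h1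
  refine h1.trans (le_of_eq ?_)
  simp

end H294UB
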