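import Pool.Agent.H294UB.Main

set_option autoImplicit false

/-! Assembly: positive proportion. -/

namespace H294UB.Asm

open MvPolynomial Pool.Agent.H936R2 Pool.Agent.H927R2.RD H294DM

lemma base_of_congr {p : ℕ} [hp : Fact p.Prime] {N d : ℕ} (ζ : ZMod p)
    (F : Fin (N + 1) → MvPolynomial (Fin (N + 1)) ℤ) (hF : ∀ i, (F i).IsHomogeneous d)
    (hFG : ∀ i (κ : Mono (N + 1) d), ((coeff (expo κ) (F i) : ℤ) : ZMod p) =
      coeff (expo κ) (GG N d ζ i)) : overR (ZMod p) F = GG N d ζ := by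
  funext i
  ext μ
  simp only [overR, coeff_map]
  by_cases hμ : μ.degree = d
  · obtain ⟨κ, rfl⟩ := exists_expo μ hμ
    exact hFG i κ
  · have h1 : coeff μ (F i) = 0 := by
      by_contra h
      exact hμ (degree_of_coeff (hF i) h)
    have h2 : coeff μ (GG N d ζ i) = 0 := by
      by_contra h
      exact hμ (degree_of_coeff (taskHom.1 (ZMod p) N d ζ i) h)
    rw [h1, h2, map_zero]

lemma modP_of_base {p : ℕ} [hp : Fact p.Prime] {N d : ℕ} (hd : 2 ≤ d) (hdp : d < p) (ζ : ZMod p)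
    (hζ : IsPrimitiveRoot ζ d) (F : Fin (N + 1) → MvPolynomial (Fin (N + 1)) ℤ)
    (hbase : overR (ZMod p) F = GG N d ζ) : ModP p N F := by
  intro k _ _ _
  let φ : ZMod p →+* k := ZMod.castHom (dvd_refl p) k
  have hk : overR k F = GG N d (φ ζ) := by
    rw [← overR_map φ F, hbase]
    funext i
    exact taskHom.2 (ZMod p) k φ N d ζ i
  have hζk : IsPrimitiveRoot (φ ζ) d := hζ.map_of_injective φ.injective
  have hζ1 : φ ζ ≠ 1 := by
    intro h
    have := hζk.pow_ne_one_of_pos_of_lt one_ne_zero (by omega : 1 < d)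
    rw [pow_one] at this
    exact this h
  have hdk : (d : k) ≠ 0 := by
    intro h
    rw [CharP.cast_eq_zero_iff k p] at h
    have := Nat.le_of_dvd (by omega) h
    omega
  constructor
  · intro x hx
    rw [hk] at hx
    exact taskZero taskMob k N d (φ ζ) (by omega) hζ1 hζk x hx
  · intro x hx m hm hper
    rw [hk] at hper ⊢
    rw [jac_GG, Matrix.det_mul]
    apply mul_ne_zero
    · exact taskMob.2 k N _ (sub_ne_zero.2 (Ne.symm hζ1))
    · exact taskJac k N d (φ ζ) (by omega) hdk hζk x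
        (taskPer taskMob taskPow k N d (φ ζ) hd hζk x hx m hm hper)

/-- The integral system `F` has no common zero in `ℂ^(N+1)` except `0`, and for every number field
`K` of degree at most `D` it has at most `C D` preperiodic points in `P^N(K)`. -/
def Bdd {N : ℕ} (C : ℕ → ℕ) (F : Fin (N + 1) → MvPolynomial (Fin (N + 1)) ℤ) : Prop :=
  (∀ x : Fin (N + 1) → ℂ, (∀ i, eval x (overR ℂ F i) = 0) → x = 0) ∧
    ∀ (D : ℕ) (K : Type) [Field K] [NumberField K], Module.finrank ℚ K ≤ D →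
      ∀ X : Finset (Fin (N + 1) → K), (∀ x ∈ X, x ≠ 0) →
        (∀ x ∈ X, ∀ y ∈ X, ∀ c : K, x = c • y → x = y) →
        (∀ x ∈ X, ∃ m n : ℕ, m < n ∧ ∃ c : K, c ≠ 0 ∧
          (ev K F)^[n] x = c • (ev K F)^[m] x) → X.card ≤ C D

theorem final (hLoc : TaskLoc) (hTail : TaskTail) (hPerm : TaskPerm) (hRes : TaskRes)
    (hNorm : TaskNorm) (hIt : TaskIt) (hNF : TaskNF) (hCnt : TaskCnt) (hMon : TaskMon)
    (hLift : TaskLift)
    (N d : ℕ) (hd : 2 ≤ d) (M : ℕ) (hM : 0 < M) : ∃ C : ℕ → ℕ,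
    ∀ A : Fin (N + 1) → MvPolynomial (Fin (N + 1)) ℤ, (∀ i, (A i).IsHomogeneous d) →
    ∀ B : Fin (N + 1) → MvPolynomial (Fin (N + 1)) ℝ, (∀ i, (B i).IsHomogeneous d) →
    (∀ i μ, |coeff μ (B i)| ≤ 1) → ∀ ε : ℝ, 0 < ε →
    ∃ δ : ℝ, 0 < δ ∧ ∃ H₀ : ℕ, ∀ H : ℕ, H₀ ≤ H →
      δ * ((Box (N + 1) d H).ncard : ℝ) ≤
        (({F | F ∈ Box (N + 1) d H ∧
          (∀ i μ, (M : ℤ) ∣ coeff μ (F i) - coeff μ (A i)) ∧
          (∀ i μ, |((coeff μ (F i) : ℤ) : ℝ) - H * coeff μ (B i)| ≤ ε * H) ∧ Bdd C F} :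
          Set (Fin (N + 1) → MvPolynomial (Fin (N + 1)) ℤ)).ncard : ℝ) := by
  obtain ⟨p, hp, hMp, hdp, ζ, hζ⟩ := exists_root d hd M
  have hcop : Nat.Coprime M p := by
    rw [Nat.coprime_comm]
    exact (Nat.Prime.coprime_iff_not_dvd hp.out).2 (Nat.not_dvd_of_pos_of_lt hM hMp)
  have hζ1 : ζ ≠ 1 := by
    intro h
    have := hζ.pow_ne_one_of_pos_of_lt one_ne_zero (by omega : 1 < d)
    rw [pow_one] at this
    exact this h
  obtain ⟨s, hs⟩ := hMon (ZMod p) N d ζ (by omega) (hζ.ne_zero (by omega)) hζ1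
  choose C hC using fun D => bound hLoc hTail hPerm hRes hNorm hIt hNF hCnt p N d s hd hp.out D
  refine ⟨C, fun A hA B hB hB1 ε hε => ?_⟩
  have hcrt : ∀ a b : ℤ, ∃ z : ℤ, (M : ℤ) ∣ z - a ∧ (p : ℤ) ∣ z - b := by
    intro a b
    have hg : IsCoprime (M : ℤ) (p : ℤ) := Nat.isCoprime_iff_coprime.2 hcop
    obtain ⟨u, v, huv⟩ := hg
    refine ⟨b * (u * M) + a * (v * p), ?_, ?_⟩
    · refine ⟨(b - a) * u, ?_⟩
      linear_combination a * huv
    · refine ⟨(a - b) * v, ?_⟩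
      linear_combination b * huv
  choose z hz1 hz2 using fun (i : Fin (N + 1)) (κ : Mono (N + 1) d) =>
    hcrt (coeff (expo κ) (A i)) (((coeff (expo κ) (GG N d ζ i)).val : ℕ) : ℤ)
  obtain ⟨δ, hδ, H₀, hH₀⟩ := count2 (N + 1) d (M * p) (Nat.mul_pos hM hp.out.pos) z
    (fun i κ => coeff (expo κ) (B i)) (fun i κ => hB1 i _) ε hε
  refine ⟨δ, hδ, H₀, fun H hH => (hH₀ H hH).trans ?_⟩
  have hfin : ({F | F ∈ Box (N + 1) d H ∧
      (∀ i μ, (M : ℤ) ∣ coeff μ (F i) - coeff μ (A i)) ∧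
      (∀ i μ, |((coeff μ (F i) : ℤ) : ℝ) - H * coeff μ (B i)| ≤ ε * H) ∧ Bdd C F} :
      Set (Fin (N + 1) → MvPolynomial (Fin (N + 1)) ℤ)).Finite :=
    (box_finite (N + 1) d H).subset fun F hF => hF.1
  have hsub : ({F | F ∈ Box (N + 1) d H ∧
      (∀ i (κ : Mono (N + 1) d), |((coeff (expo κ) (F i) : ℤ) : ℝ) -
        H * coeff (expo κ) (B i)| ≤ ε * H) ∧
      ∀ i (κ : Mono (N + 1) d), ((M * p : ℕ) : ℤ) ∣ coeff (expo κ) (F i) - z i κ} :
      Set (Fin (N + 1) → MvPolynomial (Fin (N + 1)) ℤ)) ⊆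
      {F | F ∈ Box (N + 1) d H ∧ (∀ i μ, (M : ℤ) ∣ coeff μ (F i) - coeff μ (A i)) ∧
        (∀ i μ, |((coeff μ (F i) : ℤ) : ℝ) - H * coeff μ (B i)| ≤ ε * H) ∧ Bdd C F} := by
    rintro F ⟨hF, hr, hc⟩
    have hFG : ∀ i (κ : Mono (N + 1) d), ((coeff (expo κ) (F i) : ℤ) : ZMod p) =
        coeff (expo κ) (GG N d ζ i) := by
      intro i κ
      have h1 : (p : ℤ) ∣ coeff (expo κ) (F i) - z i κ :=
        (Int.natCast_dvd_natCast.2 (Nat.dvd_mul_left p M)).trans (hc i κ)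
      have h2 := dvd_add h1 (hz2 i κ)
      have h3 : coeff (expo κ) (F i) - z i κ +
          (z i κ - (((coeff (expo κ) (GG N d ζ i)).val : ℕ) : ℤ)) =
          coeff (expo κ) (F i) - (((coeff (expo κ) (GG N d ζ i)).val : ℕ) : ℤ) := by ring
      rw [h3] at h2
      have h4 := (ZMod.intCast_zmod_eq_zero_iff_dvd _ p).2 h2
      rw [Int.cast_sub, sub_eq_zero, Int.cast_natCast, ZMod.natCast_zmod_val] at h4
      exact h4
    refine ⟨hF, ?_, ?_, ?_, ?_⟩
    · intro i μ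
      by_cases hμ : μ.degree = d
      · obtain ⟨κ, rfl⟩ := exists_expo μ hμ
        have h1 : (M : ℤ) ∣ coeff (expo κ) (F i) - z i κ :=
          (Int.natCast_dvd_natCast.2 (Nat.dvd_mul_right M p)).trans (hc i κ)
        have h2 := dvd_add h1 (hz1 i κ)
        have h3 : coeff (expo κ) (F i) - z i κ + (z i κ - coeff (expo κ) (A i)) =
            coeff (expo κ) (F i) - coeff (expo κ) (A i) := by ring
        rwa [h3] at h2
      · have h1 : coeff μ (F i) = 0 := by
          by_contra h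
          exact hμ (degree_of_coeff (hF i).1 h)
        have h2 : coeff μ (A i) = 0 := by
          by_contra h
          exact hμ (degree_of_coeff (hA i) h)
        rw [h1, h2, sub_zero]
        exact dvd_zero _
    · intro i μ
      by_cases hμ : μ.degree = d
      · obtain ⟨κ, rfl⟩ := exists_expo μ hμ
        exact hr i κ
      · have h1 : coeff μ (F i) = 0 := by
          by_contra h
          exact hμ (degree_of_coeff (hF i).1 h)
        have h2 : coeff μ (B i) = 0 := by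
          by_contra h
          exact hμ (degree_of_coeff (hB i) h)
        rw [h1, h2, mul_zero, Int.cast_zero, sub_zero, abs_zero]
        positivity
    · exact (good_of_congr taskPow taskJac (taskZero taskMob) taskCrit hd hdp ζ hζ F
        (fun i => (hF i).1) hFG).1
    · have hbase := base_of_congr ζ F (fun i => (hF i).1) hFG
      intro D K _ _ hK X hX0 hXp hX
      exact hC D F (fun i => (hF i).1) (modP_of_base hd hdp ζ hζ F hbase)
        (fun k _ _ => hLift p N d s F (fun i => (hF i).1) (by rw [hbase]; exact hs) k) K hK X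
        hX0 hXp hX
  exact_mod_cast Set.ncard_le_ncard hsub hfin

end H294UB.Asm
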