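import Pool.Agent.H294UB.Stmts

set_option autoImplicit false

namespace H294UB

open MvPolynomial Pool.Agent.H936R2 Pool.Agent.H927R2.RD

namespace InjAux

theorem eval_smul' {R : Type} [CommRing R] {n d : ℕ} {G : MvPolynomial (Fin n) R}
    (hG : G.IsHomogeneous d) (t : R) (x : Fin n → R) :
    eval (t • x) G = t ^ d * eval x G := by
  rw [eval_eq', eval_eq', Finset.mul_sum]
  apply Finset.sum_congr rfl
  intro m hm
  have hdeg : ∑ i, m i = d := by
    rw [← Finsupp.degree_eq_sum]
    by_contra hne
    exact (mem_support_iff.1 hm) (hG.coeff_eq_zero hne)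
  have h1 : ∏ i, (t • x) i ^ m i = t ^ d * ∏ i, x i ^ m i := by
    simp only [Pi.smul_apply, smul_eq_mul, mul_pow]
    rw [Finset.prod_mul_distrib, Finset.prod_pow_eq_pow_sum, hdeg]
  rw [h1]
  ring

theorem euler' {R : Type} [CommRing R] {n d : ℕ} {G : MvPolynomial (Fin n) R}
    (hG : G.IsHomogeneous d) (x : Fin n → R) :
    ∑ j, eval x (pderiv j G) * x j = d * eval x G := by
  have h := congrArg (eval x) hG.sum_X_mul_pderiv
  rw [map_sum, map_nsmul, nsmul_eq_mul] at h
  rw [← h]
  exact Finset.sum_congr rfl fun j _ => by rw [map_mul, eval_X, mul_comm]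

/-- Taylor expansion of first order. -/
theorem taylor' {R : Type} [CommRing R] {n : ℕ} (c : R) (y w : Fin n → R)
    (G : MvPolynomial (Fin n) R) :
    ∃ r : R, eval (fun i => y i + c * w i) G =
      eval y G + c * (∑ j, eval y (pderiv j G) * w j) + c ^ 2 * r := by
  obtain ⟨r, h⟩ := taylor_one (S := R) c y w G
  refine ⟨r, ?_⟩
  have h1 : aeval (fun i => algebraMap R R (y i) + algebraMap R R c * w i) G =
      eval (fun i => y i + c * w i) G := by
    rw [aeval_def, eval₂_eq_eval_map]
    simp
  rw [h1] at h
  exact h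

/-- invertible matrices preserve congruences to zero -/
theorem cancel_mat {R : Type} [CommRing R] {n : ℕ} (M : Matrix (Fin n) (Fin n) R)
    (hM : IsUnit M.det) (q : R) (v : Fin n → R) (h : ∀ i, q ∣ (M.mulVec v) i) : ∀ i, q ∣ v i := by
  have h1 : M⁻¹.mulVec (M.mulVec v) = v := by
    rw [Matrix.mulVec_mulVec, Matrix.nonsing_inv_mul _ hM, Matrix.one_mulVec]
  intro i
  rw [← h1]
  change q ∣ ∑ j, M⁻¹ i j * (M.mulVec v) j
  exact Finset.dvd_sum fun j _ => (h j).mul_left _

end InjAux

open InjAux in
theorem taskInj : TaskInj := by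
  intro A _ _ _ π hπ N d F hF j x y hy hJ hxy l hl
  rcases Nat.eq_zero_or_pos j with hj | hj
  · subst hj
    exact ⟨1, isUnit_one, fun i => by rw [pow_zero]; exact one_dvd _⟩
  set G := overR A F with hG
  have hGh : ∀ i, (G i).IsHomogeneous d := fun i => (hF i).map _
  have hunit : ∀ a : A, IsUnit a ↔ ¬ π ∣ a := by
    intro a
    constructor
    · intro ha hd
      exact hπ.not_isUnit (isUnit_of_dvd_unit hd ha)
    · intro h
      by_contra hna
      have h1 : a ∈ IsLocalRing.maximalIdeal A := (IsLocalRing.mem_maximalIdeal a).2 hna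
      rw [(IsDiscreteValuationRing.irreducible_iff_uniformizer π).1 hπ,
        Ideal.mem_span_singleton] at h1
      exact h h1
  -- Euler
  have hEuler : (jac G y).mulVec y = fun i => (d : A) * eval y (G i) := by
    funext i
    exact euler' (hGh i) y
  -- d is a unit
  have hd : IsUnit (d : A) := by
    rw [hunit]
    intro hdvd
    obtain ⟨i, hi⟩ := hy
    have h1 := cancel_mat (jac G y) hJ π y (fun i => by
      rw [hEuler]; exact hdvd.mul_right _) i
    exact (hunit _).1 hi h1
  obtain ⟨i0, hi0⟩ := hy
  have hxi0 : IsUnit (x i0) := by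
    rw [hunit]
    intro h
    have h1 := hxy i0
    rw [pow_one] at h1
    have h2 : π ∣ y i0 := by
      have := dvd_sub h h1
      rwa [sub_sub_cancel] at this
    exact (hunit _).1 hi0 h2
  obtain ⟨α, hα⟩ : ∃ α : A, α * x i0 = y i0 := by
    obtain ⟨u, hu⟩ := hxi0
    exact ⟨y i0 * ↑u⁻¹, by rw [← hu, mul_assoc, Units.inv_mul, mul_one]⟩
  have hαu : IsUnit α := by
    rw [← hα] at hi0
    exact isUnit_of_mul_isUnit_left hi0
  have hα1 : π ∣ α - 1 := by
    have h1 : π ∣ (α - 1) * x i0 := by
      have h2 := hxy i0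
      rw [pow_one] at h2
      have h3 : (α - 1) * x i0 = -(x i0 - y i0) := by rw [sub_mul, hα]; ring
      rw [h3]
      exact (dvd_neg).2 h2
    rcases hπ.prime.dvd_or_dvd h1 with h | h
    · exact h
    · exact absurd h ((hunit _).1 hxi0)
  -- the normalised point
  have hx'i0 : (α • x) i0 = y i0 := hα
  have hx'1 : Cong π 1 (α • x) y := by
    intro i
    rw [pow_one]
    have h1 : (α • x) i - y i = (α - 1) * x i + (x i - y i) := by
      simp only [Pi.smul_apply, smul_eq_mul]; ring
    rw [h1]
    have h2 := hxy i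
    rw [pow_one] at h2
    exact dvd_add (hα1.mul_right _) h2
  have hFx : ∀ i, π ^ j ∣ eval (α • x) (G i) - α ^ d * l * eval y (G i) := by
    intro i
    rw [eval_smul' (hGh i)]
    have h1 := hl i
    have h2 : ev A F x i - (l • ev A F y) i = eval x (G i) - l * eval y (G i) := rfl
    rw [h2] at h1
    have h3 : α ^ d * eval x (G i) - α ^ d * l * eval y (G i) =
        α ^ d * (eval x (G i) - l * eval y (G i)) := by ring
    rw [h3]
    exact h1.mul_left _
  have key : ∀ v, 1 ≤ v → v ≤ j → Cong π v (α • x) y := by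
    intro v hv1
    induction v, hv1 using Nat.le_induction with
    | base => intro _; exact hx'1
    | succ v hv ih =>
      intro hvj
      have ih' := ih (by omega)
      choose w hw using ih'
      have hx' : (α • x) = fun i => y i + π ^ v * w i := by
        funext i
        rw [← hw i]; ring
      -- first order expansion
      have hstep : ∀ i, π ^ (v + 1) ∣ ((jac G y).mulVec
          (fun k => (α ^ d * l - 1) * y k - (d : A) * (π ^ v * w k))) i := by
        intro i
        obtain ⟨r, hr⟩ := taylor' (π ^ v) y w (G i)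
        rw [← hx'] at hr
        have h1 : π ^ (v + 1) ∣ eval (α • x) (G i) - α ^ d * l * eval y (G i) :=
          (pow_dvd_pow π hvj).trans (hFx i)
        rw [hr] at h1
        have h2 : π ^ (v + 1) ∣ (π ^ v) ^ 2 * r := by
          rw [← pow_mul]
          exact (pow_dvd_pow π (by omega)).mul_right _
        have h3 := (dvd_sub h1 h2).mul_left (-(d : A))
        have h4 : ((jac G y).mulVec
            (fun k => (α ^ d * l - 1) * y k - (d : A) * (π ^ v * w k))) i =
            (α ^ d * l - 1) * ((d : A) * eval y (G i)) -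
              (d : A) * (π ^ v * ∑ k, eval y (pderiv k (G i)) * w k) := by
          have e1 := congrFun hEuler i
          rw [← e1]
          simp only [Matrix.mulVec, dotProduct, jac]
          rw [Finset.mul_sum, Finset.mul_sum, Finset.mul_sum, ← Finset.sum_sub_distrib]
          refine Finset.sum_congr rfl fun k _ => ?_
          ring
        rw [h4]
        convert h3 using 1
        ring
      have hall := cancel_mat (jac G y) hJ _ _ hstep
      have hwi0 : π ^ v * w i0 = 0 := by
        rw [← hw i0, hx'i0, sub_self]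
      have hl1 : π ^ (v + 1) ∣ α ^ d * l - 1 := by
        have h1 := hall i0
        rw [hwi0, mul_zero, sub_zero] at h1
        obtain ⟨u, hu⟩ := hi0
        rw [← hu] at h1
        exact (Units.dvd_mul_right).1 h1
      intro i
      have h1 := hall i
      have h2 : π ^ (v + 1) ∣ (d : A) * (π ^ v * w i) := by
        have h3 := dvd_sub (hl1.mul_right (y i)) h1
        rwa [sub_sub_cancel] at h3
      rw [hw i]
      obtain ⟨u, hu⟩ := hd
      rw [← hu] at h2
      exact (Units.dvd_mul_left).1 h2
  have hfin := key j hj le_rfl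
  obtain ⟨u, hu⟩ := hαu
  refine ⟨↑u⁻¹, Units.isUnit _, fun i => ?_⟩
  have h1 := (hfin i).mul_left (↑u⁻¹ : A)
  have h2 : (↑u⁻¹ : A) * ((α • x) i - y i) = x i - ((↑u⁻¹ : A) • y) i := by
    simp only [Pi.smul_apply, smul_eq_mul]
    rw [mul_sub, ← mul_assoc, ← hu, Units.inv_mul, one_mul]
  rwa [h2] at h1

end H294UB
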