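import Pool.Agent.H294UB.Stmts

set_option autoImplicit false

/-!
# Iterates of a homogeneous polynomial map (helper504 for helper294)
-/

namespace H294UB

open MvPolynomial Pool.Agent.H936R2 Pool.Agent.H927R2.RD H294DM

theorem taskIt : TaskIt := by
  intro A _ n d P hP k
  induction k with
  | zero =>
    refine ⟨fun i => X i, fun i => ?_, fun z => ?_⟩
    · simpa using isHomogeneous_X A i
    · funext i
      simp [pt]
  | succ k ih =>
    obtain ⟨Q, hQ, hz⟩ := ih
    refine ⟨fun i => aeval Q (P i), fun i => ?_, fun z => ?_⟩
    · rw [pow_succ]
      exact (hP i).aeval Q hQ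
    · rw [Function.iterate_succ_apply', ← hz]
      funext i
      change eval z (aeval Q (P i)) = eval (fun j => eval z (Q j)) (P i)
      induction P i using MvPolynomial.induction_on with
      | C a => simp
      | add p q hp hq => simp only [map_add, hp, hq]
      | mul_X p j hp => simp only [map_mul, hp, aeval_X, eval_X]

end H294UB
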