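import Mathlib
import Pool.Agent.H294DM.Stmts

set_option autoImplicit false

/-!
# Uniform boundedness of preperiodic points for a positive proportion of the endomorphisms of `P^N`
(MP_13bc7b_nt)
-/

namespace H294UB

open MvPolynomial Pool.Agent.H936R2 Pool.Agent.H927R2.RD H294DM

/-- The self-map of `R^(N+1)` given by the integral system `F`. -/
noncomputable def ev (R : Type) [CommRing R] {N : ℕ}
    (F : Fin (N + 1) → MvPolynomial (Fin (N + 1)) ℤ) : (Fin (N + 1) → R) → (Fin (N + 1) → R) :=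
  pt (overR R F)

/-- Some coordinate is a unit. -/
def Prim {A : Type} [CommRing A] {n : ℕ} (x : Fin n → A) : Prop := ∃ i, IsUnit (x i)

/-- Congruence modulo `π ^ j`. -/
def Cong {A : Type} [CommRing A] {n : ℕ} (π : A) (j : ℕ) (x y : Fin n → A) : Prop :=
  ∀ i, π ^ j ∣ x i - y i

/-- The reduction of the point is periodic. -/
def RPer {A : Type} [CommRing A] {N : ℕ} (π : A)
    (F : Fin (N + 1) → MvPolynomial (Fin (N + 1)) ℤ) (x : Fin (N + 1) → A) : Prop :=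
  ∃ m, 0 < m ∧ ∃ c : A, IsUnit c ∧ Cong π 1 ((ev A F)^[m] x) (c • x)

/-- Good reduction without ramified periodic points. -/
def GoodA {A : Type} [CommRing A] {N : ℕ} (π : A)
    (F : Fin (N + 1) → MvPolynomial (Fin (N + 1)) ℤ) : Prop :=
  (∀ x, Prim x → Prim (ev A F x)) ∧
    ∀ x, Prim x → RPer π F x → IsUnit (jac (overR A F) x).det

/-- The system is good modulo `p` (over all algebraically closed fields of characteristic `p`). -/
def ModP (p N : ℕ) (F : Fin (N + 1) → MvPolynomial (Fin (N + 1)) ℤ) : Prop :=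
  ∀ (k : Type) [Field k] [IsAlgClosed k] [CharP k p],
    (∀ x : Fin (N + 1) → k, (∀ i, eval x (overR k F i) = 0) → x = 0) ∧
    (∀ x : Fin (N + 1) → k, x ≠ 0 → ∀ m : ℕ, 0 < m → (pt (overR k F))^[m] x = x →
      (jac (overR k F) x).det ≠ 0)

/-- Task Loc: from `ModP` to `GoodA`. -/
def TaskLoc : Prop :=
  ∀ (A : Type) [CommRing A] [IsDomain A] [IsDiscreteValuationRing A] (π : A), Irreducible π →
  ∀ p : ℕ, p.Prime → π ∣ (p : A) →
  ∀ (N d : ℕ) (F : Fin (N + 1) → MvPolynomial (Fin (N + 1)) ℤ), 2 ≤ d →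
    (∀ i, (F i).IsHomogeneous d) → ModP p N F → GoodA π F

/-- Task Inj: unramified residue classes, one step. -/
def TaskInj : Prop :=
  ∀ (A : Type) [CommRing A] [IsDomain A] [IsDiscreteValuationRing A] (π : A), Irreducible π →
  ∀ (N d : ℕ) (F : Fin (N + 1) → MvPolynomial (Fin (N + 1)) ℤ), (∀ i, (F i).IsHomogeneous d) →
  ∀ (j : ℕ) (x y : Fin (N + 1) → A), Prim y → IsUnit (jac (overR A F) y).det → Cong π 1 x y →
  ∀ l : A, Cong π j (ev A F x) (l • ev A F y) → ∃ u : A, IsUnit u ∧ Cong π j x (u • y)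

/-- Task Iter: unramified residue classes, several steps. -/
def TaskIter : Prop :=
  ∀ (A : Type) [CommRing A] [IsDomain A] [IsDiscreteValuationRing A] (π : A), Irreducible π →
  ∀ (N d : ℕ) (F : Fin (N + 1) → MvPolynomial (Fin (N + 1)) ℤ), (∀ i, (F i).IsHomogeneous d) →
  GoodA π F → ∀ (j t : ℕ) (x y : Fin (N + 1) → A), Prim y → RPer π F y →
  ∀ c : A, IsUnit c → Cong π 1 x (c • y) →
  ∀ l : A, Cong π j ((ev A F)^[t] x) (l • (ev A F)^[t] y) → ∃ u : A, IsUnit u ∧ Cong π j x (u • y)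

/-- Task Tail: a preperiodic point with periodic reduction is periodic. -/
def TaskTail : Prop :=
  ∀ (A : Type) [CommRing A] [IsDomain A] [IsDiscreteValuationRing A] (π : A), Irreducible π →
  ∀ (N d : ℕ) (F : Fin (N + 1) → MvPolynomial (Fin (N + 1)) ℤ), (∀ i, (F i).IsHomogeneous d) →
  GoodA π F → ∀ x : Fin (N + 1) → A, Prim x → RPer π F x →
  (∃ a b : ℕ, a < b ∧ ∃ c : A, IsUnit c ∧ (ev A F)^[b] x = c • (ev A F)^[a] x) →
  ∃ n, 0 < n ∧ ∃ c : A, IsUnit c ∧ (ev A F)^[n] x = c • x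

/-- Task Perm: modulo `π ^ j`, the `w!`-th iterate fixes all points with periodic reduction. -/
def TaskPerm : Prop :=
  ∀ (A : Type) [CommRing A] [IsDomain A] [IsDiscreteValuationRing A] (π : A), Irreducible π →
  ∀ (N d : ℕ) (F : Fin (N + 1) → MvPolynomial (Fin (N + 1)) ℤ), (∀ i, (F i).IsHomogeneous d) →
  GoodA π F → ∀ j w : ℕ, Finite (A ⧸ Ideal.span {π ^ j}) →
  Nat.card (A ⧸ Ideal.span {π ^ j}) ^ (N + 1) ≤ w → 1 ≤ j →
  ∀ z : Fin (N + 1) → A, Prim z → RPer π F z →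
  ∃ l : A, IsUnit l ∧ Cong π j ((ev A F)^[w.factorial] z) (l • z)

/-- Task Res: after `w` steps the reduction is periodic. -/
def TaskRes : Prop :=
  ∀ (A : Type) [CommRing A] [IsDomain A] [IsDiscreteValuationRing A] (π : A), Irreducible π →
  ∀ (N d : ℕ) (F : Fin (N + 1) → MvPolynomial (Fin (N + 1)) ℤ), (∀ i, (F i).IsHomogeneous d) →
  GoodA π F → ∀ w : ℕ, Finite (A ⧸ Ideal.span {π ^ 1}) →
  Nat.card (A ⧸ Ideal.span {π ^ 1}) ^ (N + 1) ≤ w →
  ∀ z : Fin (N + 1) → A, Prim z → Prim ((ev A F)^[w] z) ∧ RPer π F ((ev A F)^[w] z)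

/-- Task Abs: a self-map of a set of vectors that is very close to a translation has no periodic
points except fixed points. -/
def TaskAbs : Prop :=
  ∀ (A : Type) [CommRing A] [IsDomain A] [IsDiscreteValuationRing A] (π : A), Irreducible π →
  ∀ n e : ℕ, (∀ q : ℕ, q.Prime → ¬ π ^ (e + 1) ∣ (q : A)) →
  ∀ (U : Set (Fin n → A)) (Φ : (Fin n → A) → (Fin n → A)), (∀ z ∈ U, Φ z ∈ U) →
  (∀ z ∈ U, ∀ z' ∈ U, ∀ v, e + 1 ≤ v → Cong π v z' z →
    ∀ i, π ^ (v + e + 1) ∣ (Φ z' i - Φ z i) - (z' i - z i)) →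
  ∀ z ∈ U, Cong π (e + 1) (Φ z) z → ∀ m, 0 < m → Φ^[m] z = z → Φ z = z

/-- Task Norm: a homogeneous polynomial map that is the identity of the projective space modulo
`π ^ (2 (e + 1))` on a residue class has no periodic points there except fixed points. -/
def TaskNorm : Prop :=
  ∀ (A : Type) [CommRing A] [IsDomain A] [IsDiscreteValuationRing A] (π : A), Irreducible π →
  ∀ n e : ℕ, (∀ q : ℕ, q.Prime → ¬ π ^ (e + 1) ∣ (q : A)) →
  ∀ (D : ℕ) (P : Fin n → MvPolynomial (Fin n) A), (∀ i, (P i).IsHomogeneous D) →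
  ∀ (x : Fin n → A), Prim x →
  (∀ z : Fin n → A, Cong π 1 z x → ∃ l : A, IsUnit l ∧ Cong π (2 * (e + 1)) (pt P z) (l • z)) →
  ∀ m, 0 < m → (∃ c : A, IsUnit c ∧ (pt P)^[m] x = c • x) → ∃ c : A, IsUnit c ∧ pt P x = c • x

/-- Task It: iterates of a homogeneous polynomial map are homogeneous polynomial maps. -/
def TaskIt : Prop :=
  ∀ (A : Type) [CommRing A] (n d : ℕ) (P : Fin n → MvPolynomial (Fin n) A),
    (∀ i, (P i).IsHomogeneous d) → ∀ k : ℕ, ∃ Q : Fin n → MvPolynomial (Fin n) A,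
      (∀ i, (Q i).IsHomogeneous (d ^ k)) ∧ ∀ z, pt Q z = (pt P)^[k] z

/-- Task NF: a discrete valuation ring of a number field above `p`. -/
def TaskNF : Prop :=
  ∀ (K : Type) [Field K] [NumberField K] (D : ℕ), Module.finrank ℚ K ≤ D →
  ∀ p : ℕ, p.Prime →
  ∃ (A : Type) (_ : CommRing A) (_ : IsDomain A) (_ : IsDiscreteValuationRing A)
    (_ : Algebra A K) (_ : IsFractionRing A K) (π : A), Irreducible π ∧ π ∣ (p : A) ∧
    (∀ q : ℕ, q.Prime → ¬ π ^ (D + 1) ∣ (q : A)) ∧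
    ∀ j : ℕ, Finite (A ⧸ Ideal.span {π ^ j}) ∧ Nat.card (A ⧸ Ideal.span {π ^ j}) ≤ p ^ (D * j)

/-- All monomials of degree `s` lie in the ideal of the forms. -/
def MonIn {R : Type} [CommRing R] {n : ℕ} (s : ℕ) (P : Fin n → MvPolynomial (Fin n) R) : Prop :=
  ∀ μ : Fin n →₀ ℕ, μ.degree = s → monomial μ (1 : R) ∈ Ideal.span (Set.range P)

/-- Task Mon: the model forms contain all monomials of large degree. -/
def TaskMon : Prop :=
  ∀ (k : Type) [Field k] (N d : ℕ) (ζ : k), 0 < d → ζ ≠ 0 → ζ ≠ 1 →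
    ∃ s : ℕ, MonIn s (GG N d ζ)

/-- Task Lift: from `F_p` to fields of characteristic zero. -/
def TaskLift : Prop :=
  ∀ (p : ℕ) [Fact p.Prime] (N d s : ℕ) (F : Fin (N + 1) → MvPolynomial (Fin (N + 1)) ℤ),
    (∀ i, (F i).IsHomogeneous d) → MonIn s (overR (ZMod p) F) →
    ∀ (k : Type) [Field k] [CharZero k], MonIn s (overR k F)

/-- Task Fib: a uniform bound for the number of solutions of `F(x_i) = x_(σ i)`. -/
def TaskFib : Prop :=
  ∀ N m s : ℕ, ∃ C : ℕ, ∀ (k : Type) [Field k] (d : ℕ), 2 ≤ d →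
    ∀ P : Fin (N + 1) → MvPolynomial (Fin (N + 1)) k, (∀ i, (P i).IsHomogeneous d) → MonIn s P →
    ∀ (σ : Fin m → Fin m) (X : Finset (Fin m → Fin (N + 1) → k)),
      (∀ x ∈ X, ∀ i, pt P (x i) = x (σ i)) → X.card ≤ C

/-- Task Cnt: a uniform bound for the number of points with `F^(b+e)(x) = F^b(x)`. -/
def TaskCnt : Prop :=
  ∀ N s b e : ℕ, 0 < e → ∃ C : ℕ, ∀ (K : Type) [Field K] (d : ℕ), 2 ≤ d →
    ∀ P : Fin (N + 1) → MvPolynomial (Fin (N + 1)) K, (∀ i, (P i).IsHomogeneous d) → MonIn s P →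
    ∀ X : Finset (Fin (N + 1) → K), (∀ x ∈ X, x ≠ 0) →
      (∀ x ∈ X, ∀ y ∈ X, ∀ c : K, x = c • y → x = y) →
      (∀ x ∈ X, ∃ c : K, c ≠ 0 ∧ (pt P)^[b + e] x = c • (pt P)^[b] x) → X.card ≤ C

end H294UB
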