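import Mathlib
import Pool.Agent.H294UB.Stmts

set_option autoImplicit false

namespace H294UB

open MvPolynomial Pool.Agent.H936R2 Pool.Agent.H927R2.RD H294DM

namespace IterAux

variable {A : Type} [CommRing A]

lemma dvd_eval {ι : Type} (q : A) (x y : ι → A) (h : ∀ i, q ∣ x i - y i) (P : MvPolynomial ι A) :
    q ∣ eval x P - eval y P := by
  induction P using MvPolynomial.induction_on with
  | C a => simp
  | add p q hp hq =>
    rw [map_add, map_add, add_sub_add_comm]
    exact dvd_add hp hq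
  | mul_X p i hp =>
    rw [map_mul, map_mul, eval_X, eval_X]
    have e : eval x p * x i - eval y p * y i = (eval x p - eval y p) * x i + eval y p * (x i - y i) := by
      ring
    rw [e]
    exact dvd_add (hp.mul_right _) ((h i).mul_left _)

lemma cong_ev {N : ℕ} {π : A} (F : Fin (N + 1) → MvPolynomial (Fin (N + 1)) ℤ) {j : ℕ}
    {x y : Fin (N + 1) → A} (h : Cong π j x y) : Cong π j (ev A F x) (ev A F y) :=
  fun i => dvd_eval _ _ _ h (overR A F i)

lemma cong_iter {N : ℕ} {π : A} (F : Fin (N + 1) → MvPolynomial (Fin (N + 1)) ℤ) {j : ℕ}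
    {x y : Fin (N + 1) → A} (h : Cong π j x y) (n : ℕ) :
    Cong π j ((ev A F)^[n] x) ((ev A F)^[n] y) := by
  induction n with
  | zero => exact h
  | succ n ih =>
    rw [Function.iterate_succ_apply', Function.iterate_succ_apply']
    exact cong_ev F ih

lemma cong_trans {n : ℕ} {π : A} {j : ℕ} {x y z : Fin n → A} (h : Cong π j x y)
    (h' : Cong π j y z) : Cong π j x z := by
  intro i
  have := dvd_add (h i) (h' i)
  rwa [sub_add_sub_cancel] at this

lemma cong_symm {n : ℕ} {π : A} {j : ℕ} {x y : Fin n → A} (h : Cong π j x y) : Cong π j y x := by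
  intro i
  have := (dvd_neg (α := A)).2 (h i)
  rwa [neg_sub] at this

lemma cong_smul {n : ℕ} {π : A} {j : ℕ} {x y : Fin n → A} (h : Cong π j x y) (c : A) :
    Cong π j (c • x) (c • y) := by
  intro i
  simp only [Pi.smul_apply, smul_eq_mul]
  rw [← mul_sub]
  exact (h i).mul_left _

lemma eval_smul' {ι : Type} (P : MvPolynomial ι A) (e : ℕ)
    (hP : P.IsHomogeneous e) (c : A) (x : ι → A) :
    eval (c • x) P = c ^ e * eval x P := by
  rw [eval_eq, eval_eq, Finset.mul_sum]
  apply Finset.sum_congr rfl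
  intro κ hκ
  have hdeg : κ.degree = e := by
    have := hP (mem_support_iff.1 hκ)
    rw [Finsupp.degree_eq_weight_one]; exact this
  have h3 : ∏ j ∈ κ.support, ((c • x) j) ^ κ j =
      c ^ e * ∏ j ∈ κ.support, (x j) ^ κ j := by
    simp only [Pi.smul_apply, smul_eq_mul]
    rw [Finset.prod_congr rfl fun j _ => mul_pow _ _ _, Finset.prod_mul_distrib,
      Finset.prod_pow_eq_pow_sum]
    congr 2
  rw [h3]
  ring

lemma ev_smul {N d : ℕ} (F : Fin (N + 1) → MvPolynomial (Fin (N + 1)) ℤ)
    (hF : ∀ i, (F i).IsHomogeneous d) (c : A) (x : Fin (N + 1) → A) :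
    ev A F (c • x) = c ^ d • ev A F x := by
  funext i
  exact eval_smul' (overR A F i) d ((hF i).map _) c x

lemma iter_smul {N d : ℕ} (F : Fin (N + 1) → MvPolynomial (Fin (N + 1)) ℤ)
    (hF : ∀ i, (F i).IsHomogeneous d) (c : A) (x : Fin (N + 1) → A) (n : ℕ) :
    (ev A F)^[n] (c • x) = c ^ d ^ n • (ev A F)^[n] x := by
  induction n with
  | zero => simp
  | succ n ih =>
    rw [Function.iterate_succ_apply', ih, Function.iterate_succ_apply', ev_smul F hF, ← pow_mul,
      ← pow_succ]

lemma prim_smul {n : ℕ} {x : Fin n → A} (h : Prim x) {c : A} (hc : IsUnit c) : Prim (c • x) := by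
  obtain ⟨i, hi⟩ := h
  exact ⟨i, hc.mul hi⟩

lemma rper_ev {N d : ℕ} {π : A} (F : Fin (N + 1) → MvPolynomial (Fin (N + 1)) ℤ)
    (hF : ∀ i, (F i).IsHomogeneous d) {x : Fin (N + 1) → A} (h : RPer π F x) :
    RPer π F (ev A F x) := by
  obtain ⟨m, hm, c, hc, h⟩ := h
  refine ⟨m, hm, c ^ d, hc.pow d, ?_⟩
  have h1 := cong_ev F h
  rw [ev_smul F hF] at h1
  rw [← Function.iterate_succ_apply, Function.iterate_succ_apply']
  exact h1

lemma rper_smul {N d : ℕ} {π : A} (F : Fin (N + 1) → MvPolynomial (Fin (N + 1)) ℤ)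
    (hF : ∀ i, (F i).IsHomogeneous d) {x : Fin (N + 1) → A} (h : RPer π F x) {b : A}
    (hb : IsUnit b) : RPer π F (b • x) := by
  obtain ⟨m, hm, c, hc, h⟩ := h
  obtain ⟨b', hb'⟩ := hb.exists_left_inv
  refine ⟨m, hm, b ^ d ^ m * c * b', (((hb.pow _).mul hc).mul (IsUnit.of_mul_eq_one b (by exact hb'))), ?_⟩
  rw [iter_smul F hF]
  have h1 := cong_smul h (b ^ d ^ m)
  have e : (b ^ d ^ m * c * b') • b • x = b ^ d ^ m • c • x := by
    rw [smul_smul, smul_smul, mul_assoc (b ^ d ^ m * c), hb', mul_one]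
  rw [e]
  exact h1

end IterAux

open IterAux

theorem taskIter (h : TaskInj) : TaskIter := by
  intro A _ _ _ π hπ N d F hF hG j t
  induction t with
  | zero =>
    intro x y hy _ c hc hxc l hl
    rcases Nat.eq_zero_or_pos j with rfl | hj
    · exact ⟨1, isUnit_one, fun i => by simp⟩
    · refine ⟨l, ?_, hl⟩
      obtain ⟨i, hi⟩ := hy
      by_contra hln
      have hmax := (IsDiscreteValuationRing.irreducible_iff_uniformizer π).1 hπ
      have h1 : π ∣ l := by
        have h2 : l ∈ IsLocalRing.maximalIdeal A := (IsLocalRing.mem_maximalIdeal l).2 hln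
        rw [hmax, Ideal.mem_span_singleton] at h2
        exact h2
      have h3 : π ∣ x i - l * y i := (dvd_pow_self π hj.ne').trans (hl i)
      have h4 : π ∣ x i := by
        have := dvd_add h3 (h1.mul_right (y i))
        rwa [sub_add_cancel] at this
      have h5 : π ∣ x i - c * y i := by
        have := hxc i
        rw [pow_one] at this
        exact this
      have h6 : π ∣ c * y i := by
        have := dvd_sub h4 h5
        rwa [sub_sub_cancel] at this
      exact hπ.not_isUnit (isUnit_of_dvd_unit h6 (hc.mul hi))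
  | succ t ih =>
    intro x y hy hper c hc hxc l hl
    rw [Function.iterate_succ_apply, Function.iterate_succ_apply] at hl
    have h1 : Cong π 1 (ev A F x) (c ^ d • ev A F y) := by
      rw [← ev_smul F hF]
      exact cong_ev F hxc
    obtain ⟨u', hu', h2⟩ := ih (ev A F x) (ev A F y) (hG.1 y hy) (rper_ev F hF hper) (c ^ d)
      (hc.pow d) h1 l hl
    obtain ⟨b, hb⟩ := (hc.pow d).exists_left_inv
    obtain ⟨u, hu, h3⟩ := h A π hπ N d F hF j x (c • y) (prim_smul hy hc)
      (hG.2 _ (prim_smul hy hc) (rper_smul F hF hper hc)) hxc (u' * b) (by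
        rw [ev_smul F hF, smul_smul, mul_assoc, hb, mul_one]
        exact h2)
    exact ⟨u * c, hu.mul hc, by rw [mul_smul]; exact h3⟩

end H294UB
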