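import Mathlib
import Pool.Agent.H294UB.Stmts

set_option autoImplicit false

/-! Task Lift: from `F_p` to fields of characteristic zero. -/

namespace H294UB

open MvPolynomial Pool.Agent.H936R2 Pool.Agent.H927R2.RD H294DM

namespace Lift632

variable {σ : Type} {R : Type} [CommRing R]

lemma comp_mul_mem (P : MvPolynomial σ R) (d s : ℕ) (hP : P.IsHomogeneous d)
    (I : Ideal (MvPolynomial σ R)) (hI : P ∈ I) (c : MvPolynomial σ R) :
    homogeneousComponent s (c * P) ∈ I := by
  rw [← sum_homogeneousComponent (φ := c), Finset.sum_mul, map_sum]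
  refine Ideal.sum_mem _ (fun j _ => ?_)
  have h1 : homogeneousComponent j c * P ∈ homogeneousSubmodule σ R (j + d) :=
    (homogeneousComponent_isHomogeneous j c).mul hP
  rw [homogeneousComponent_of_mem h1]
  split_ifs
  · exact I.mul_mem_left _ hI
  · exact I.zero_mem

lemma comp_mem {ι : Type} [Fintype ι] (P : ι → MvPolynomial σ R) (d s : ℕ)
    (hP : ∀ i, (P i).IsHomogeneous d) (E : MvPolynomial σ R)
    (hE : E ∈ Ideal.span (Set.range P)) :
    homogeneousComponent s E ∈ Ideal.span (Set.range P) := by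
  obtain ⟨c, rfl⟩ := (Ideal.mem_span_range_iff_exists_fun).mp hE
  rw [map_sum]
  refine Ideal.sum_mem _ (fun i _ => comp_mul_mem (P i) d s (hP i) _ ?_ (c i))
  exact Ideal.subset_span (Set.mem_range_self i)

lemma hs_eq_span (s : ℕ) : homogeneousSubmodule σ R s =
    Submodule.span R ((fun μ => monomial μ (1 : R)) '' {μ : σ →₀ ℕ | μ.degree = s}) := by
  apply le_antisymm
  · intro φ hφ
    rw [← support_sum_monomial_coeff φ]
    refine Submodule.sum_mem _ (fun m hm => ?_)
    have h1 : monomial m (coeff m φ) = coeff m φ • monomial m (1 : R) := by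
      rw [smul_monomial, smul_eq_mul, mul_one]
    rw [h1]
    refine Submodule.smul_mem _ _ (Submodule.subset_span ⟨m, ?_, rfl⟩)
    by_contra hne
    have h2 : coeff m (homogeneousComponent s φ) = 0 := by
      rw [coeff_homogeneousComponent, if_neg (show ¬ m.degree = s from hne)]
    rw [homogeneousComponent_eq_self ((mem_homogeneousSubmodule s φ).mp hφ)] at h2
    exact (mem_support_iff.mp hm) h2
  · rw [Submodule.span_le]
    rintro _ ⟨μ, hμ, rfl⟩
    exact isHomogeneous_monomial _ hμ

lemma hs_fg [Finite σ] (s : ℕ) : (homogeneousSubmodule σ R s).FG := by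
  rw [hs_eq_span]
  refine Submodule.fg_span (Set.Finite.image _ ?_)
  exact (Finsupp.finite_of_degree_le s).subset (fun μ hμ => le_of_eq hμ)

end Lift632

open Lift632

theorem taskLift : TaskLift := by
  intro p hp N d s F hF hM k _ _
  obtain ⟨J, hJ⟩ : ∃ J, J = Ideal.span (Set.range F) := ⟨_, rfl⟩
  have hmap : ∀ (R : Type) [CommRing R], Ideal.span (Set.range (overR R F)) =
      Ideal.map (MvPolynomial.map (Int.castRingHom R)) J := by
    intro R _
    rw [hJ, Ideal.map_span, ← Set.range_comp]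
    rfl
  have hE : ∀ μ : Fin (N + 1) →₀ ℕ, μ.degree = s → ∃ E ∈ J, ∃ Q,
      E - monomial μ 1 = C (p : ℤ) * Q := by
    intro μ hμ
    have h1 := hM μ hμ
    rw [hmap, Ideal.mem_map_iff_of_surjective _
      (map_surjective _ (ZMod.intCast_surjective (n := p)))] at h1
    obtain ⟨E, hE1, hE2⟩ := h1
    refine ⟨E, hE1, ?_⟩
    have h2 : MvPolynomial.map (Int.castRingHom (ZMod p)) (E - monomial μ 1) = 0 := by
      rw [map_sub, hE2, map_monomial, (Int.castRingHom (ZMod p)).map_one, sub_self]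
    exact (C_dvd_iff_zmod p _).mpr h2
  let L : Submodule ℤ (MvPolynomial (Fin (N + 1)) ℤ) := J.restrictScalars ℤ
  let V : Submodule ℤ (MvPolynomial (Fin (N + 1)) ℤ ⧸ L) :=
    (homogeneousSubmodule (Fin (N + 1)) ℤ s).map L.mkQ
  have hfg : V.FG := (hs_fg s).map _
  have hle : V ≤ Ideal.span {(p : ℤ)} • V := by
    have h0 : V = Submodule.span ℤ (L.mkQ ''
        ((fun μ => monomial μ (1 : ℤ)) '' {μ : Fin (N + 1) →₀ ℕ | μ.degree = s})) := by
      rw [← Submodule.map_span, ← hs_eq_span]
    conv_lhs => rw [h0]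
    rw [Submodule.span_le]
    rintro _ ⟨_, ⟨μ, hμ, rfl⟩, rfl⟩
    obtain ⟨E, hE1, Q, hQ⟩ := hE μ hμ
    have h1 : homogeneousComponent s E ∈ J := by
      rw [hJ] at hE1 ⊢
      exact comp_mem F d s hF E hE1
    have h2 : homogeneousComponent s E - monomial μ 1 = (p : ℤ) • homogeneousComponent s Q := by
      have h3 := congrArg (homogeneousComponent s) hQ
      rw [map_sub, homogeneousComponent_eq_self (isHomogeneous_monomial (1 : ℤ) hμ),
        homogeneousComponent_C_mul, ← smul_eq_C_mul] at h3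
      exact h3
    have h4 : monomial μ (1 : ℤ) = homogeneousComponent s E +
        (p : ℤ) • (-homogeneousComponent s Q) := by
      rw [smul_neg, ← h2]
      ring
    show L.mkQ (monomial μ (1 : ℤ)) ∈ Ideal.span {(p : ℤ)} • V
    rw [h4, map_add, map_smul]
    have h5 : L.mkQ (homogeneousComponent s E) = 0 := by
      rw [Submodule.mkQ_apply, Submodule.Quotient.mk_eq_zero]
      exact h1
    rw [h5, zero_add]
    refine Submodule.smul_mem_smul (Ideal.mem_span_singleton_self _) ?_
    exact ⟨_, (homogeneousSubmodule (Fin (N + 1)) ℤ s).neg_mem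
      (homogeneousComponent_isHomogeneous s Q), rfl⟩
  obtain ⟨r, hr1, hr2⟩ :=
    Submodule.exists_sub_one_mem_and_smul_eq_zero_of_fg_of_le_smul _ V hfg hle
  have hr0 : r ≠ 0 := by
    rintro rfl
    rw [Ideal.mem_span_singleton, zero_sub, dvd_neg] at hr1
    have h1 := Int.natCast_dvd_natCast.mp (by exact_mod_cast hr1 : ((p : ℕ) : ℤ) ∣ ((1 : ℕ) : ℤ))
    exact hp.out.one_lt.ne' (Nat.dvd_one.mp h1)
  intro μ hμ
  have h1 := hr2 (L.mkQ (monomial μ 1)) ⟨_, isHomogeneous_monomial _ hμ, rfl⟩
  rw [← map_smul, Submodule.mkQ_apply, Submodule.Quotient.mk_eq_zero] at h1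
  have h2 : r • monomial μ (1 : ℤ) ∈ J := h1
  have h3 := Ideal.mem_map_of_mem (MvPolynomial.map (Int.castRingHom k)) h2
  rw [← hmap, smul_monomial, map_monomial] at h3
  have hrk : ((r : ℤ) : k) ≠ 0 := Int.cast_ne_zero.mpr hr0
  have h4 := Ideal.mul_mem_left _ (C ((r : k)⁻¹)) h3
  rw [C_mul_monomial] at h4
  have h5 : ((r : k)⁻¹) * (Int.castRingHom k) (r • (1 : ℤ)) = 1 := by
    simp [hrk]
  rw [h5] at h4
  exact h4

end H294UB
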