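import Pool.Agent.H294UB.Stmts

set_option autoImplicit false

namespace H294UB

open MvPolynomial Pool.Agent.H936R2 Pool.Agent.H927R2.RD H294DM

theorem taskLoc : TaskLoc := by
  intro A _ _ _ π hπ p hp hpπ N d F hd hF hM
  let k := AlgebraicClosure (IsLocalRing.ResidueField A)
  let φ : A →+* k := (algebraMap (IsLocalRing.ResidueField A) k).comp (IsLocalRing.residue A)
  have hφ : ∀ a : A, φ a = 0 ↔ ¬ IsUnit a := by
    intro a
    show algebraMap (IsLocalRing.ResidueField A) k (IsLocalRing.residue A a) = 0 ↔ _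
    rw [map_eq_zero, IsLocalRing.residue_eq_zero_iff, IsLocalRing.mem_maximalIdeal,
      mem_nonunits_iff]
  have hφπ : φ π = 0 := (hφ π).2 hπ.not_isUnit
  have hφdvd : ∀ a : A, π ∣ a → φ a = 0 := by
    rintro a ⟨b, rfl⟩
    rw [map_mul, hφπ, zero_mul]
  have hpk : ((p : ℕ) : k) = 0 := by
    have := hφdvd _ hpπ
    rwa [map_natCast] at this
  have hchar : CharP k p := (CharP.charP_iff_prime_eq_zero hp).2 hpk
  obtain ⟨h1, h2⟩ := hM k
  have hit : ∀ (x : Fin (N + 1) → A) (n : ℕ), (pt (overR k F))^[n] (fun i => φ (x i)) =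
      fun i => φ ((ev A F)^[n] x i) := by
    intro x n
    have := pt_map φ (overR A F) x n
    rw [overR_map] at this
    exact this
  have hne : ∀ x : Fin (N + 1) → A, Prim x → (fun i => φ (x i)) ≠ 0 := by
    rintro x ⟨i, hi⟩ h
    have := congrFun h i
    exact (hφ _).1 this hi
  refine ⟨?_, ?_⟩
  · intro x hx
    by_contra hcon
    apply hne x hx
    apply h1
    intro i
    have e := congrFun (hit x 1) i
    simp only [Function.iterate_one] at e
    have e2 : eval (fun i => φ (x i)) (overR k F i) = φ (ev A F x i) := e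
    rw [e2, hφ]
    exact fun hu => hcon ⟨i, hu⟩
  · rintro x hx ⟨m, hm, c, hc, hcong⟩
    have hcb : φ c ≠ 0 := fun h => (hφ c).1 h hc
    have hper : (pt (overR k F))^[m] (fun i => φ (x i)) = fun i => φ c * φ (x i) := by
      rw [hit x m]
      funext i
      have h3 := hφdvd _ (by simpa using hcong i)
      rw [map_sub, sub_eq_zero] at h3
      rw [h3]
      simp
    have hdm : 2 ≤ d ^ m := by
      calc 2 ≤ d := hd
        _ = d ^ 1 := (pow_one d).symm
        _ ≤ d ^ m := Nat.pow_le_pow_right (by omega) hm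
    obtain ⟨t, ht⟩ := IsAlgClosed.exists_pow_nat_eq (φ c)⁻¹ (show 0 < d ^ m - 1 by omega)
    have ht0 : t ≠ 0 := by
      rintro rfl
      rw [zero_pow (by omega)] at ht
      exact inv_ne_zero hcb ht.symm
    have hFk : ∀ i, (overR k F i).IsHomogeneous d := fun i => (hF i).map _
    have hper2 : (pt (overR k F))^[m] (fun i => t * φ (x i)) = fun i => t * φ (x i) := by
      rw [iterate_scale (overR k F) d hFk t (fun i => φ (x i)) m, hper]
      funext i
      have e : t ^ d ^ m = t * t ^ (d ^ m - 1) := by
        rw [← pow_succ']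
        congr 1
        omega
      show t ^ d ^ m * (φ c * φ (x i)) = t * φ (x i)
      rw [e, ht, mul_assoc, ← mul_assoc (φ c)⁻¹, inv_mul_cancel₀ hcb, one_mul]
    have hne2 : (fun i => t * φ (x i)) ≠ 0 := by
      intro h
      apply hne x hx
      funext i
      have := congrFun h i
      simpa [ht0] using this
    have hdet := h2 _ hne2 m hm hper2
    have hjac : jac (overR k F) (fun i => t * φ (x i)) =
        t ^ (d - 1) • jac (overR k F) (fun i => φ (x i)) := by
      ext i j
      simp only [jac, Matrix.smul_apply, smul_eq_mul]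
      exact eval_scale _ (d - 1) (hFk i).pderiv t _
    rw [hjac, Matrix.det_smul] at hdet
    have hdet2 := right_ne_zero_of_mul hdet
    have hj := jac_map φ (overR A F) x
    rw [overR_map] at hj
    rw [hj, ← RingHom.map_det] at hdet2
    by_contra hu
    exact hdet2 ((hφ _).2 hu)

end H294UB
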