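import Pool.Agent.H294UB.Stmts
import Pool.Agent.H294DM.Main2

set_option autoImplicit false

/-! Assembly. -/

namespace H294UB.Asm

open MvPolynomial Pool.Agent.H936R2 Pool.Agent.H927R2.RD H294DM

section

variable {N d : ℕ} {F : Fin (N + 1) → MvPolynomial (Fin (N + 1)) ℤ}

lemma eval_smul_hom {R : Type} [CommRing R] {n d : ℕ} {P : MvPolynomial (Fin n) R}
    (hP : P.IsHomogeneous d) (c : R) (x : Fin n → R) :
    eval (c • x) P = c ^ d * eval x P := by
  rw [eval_eq, eval_eq, Finset.mul_sum]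
  apply Finset.sum_congr rfl
  intro κ hκ
  have hdeg : κ.degree = d := by
    have := hP (mem_support_iff.1 hκ)
    rw [Finsupp.degree_eq_weight_one]; exact this
  have h3 : ∏ j ∈ κ.support, ((c • x) j) ^ κ j =
      c ^ d * ∏ j ∈ κ.support, (x j) ^ κ j := by
    rw [Finset.prod_congr rfl fun j _ => by rw [Pi.smul_apply, smul_eq_mul, mul_pow],
      Finset.prod_mul_distrib, Finset.prod_pow_eq_pow_sum]
    congr 2
  rw [h3]
  ring

lemma ev_smul {R : Type} [CommRing R] (hF : ∀ i, (F i).IsHomogeneous d) (c : R)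
    (x : Fin (N + 1) → R) : ev R F (c • x) = c ^ d • ev R F x := by
  funext i
  simp only [ev, pt, Pi.smul_apply, smul_eq_mul]
  exact eval_smul_hom ((hF i).map _) c x

lemma ev_iter_smul {R : Type} [CommRing R] (hF : ∀ i, (F i).IsHomogeneous d) (c : R)
    (x : Fin (N + 1) → R) (n : ℕ) : (ev R F)^[n] (c • x) = c ^ d ^ n • (ev R F)^[n] x := by
  induction n with
  | zero => simp
  | succ n ih =>
    rw [Function.iterate_succ_apply', ih, ev_smul hF, Function.iterate_succ_apply', ← pow_mul,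
      ← pow_succ]

lemma ev_map {R R' : Type} [CommRing R] [CommRing R'] (φ : R →+* R') (x : Fin (N + 1) → R) :
    ev R' F (fun i => φ (x i)) = fun i => φ (ev R F x i) := by
  have h := pt_map φ (overR R F) x 1
  simp only [Function.iterate_one] at h
  rw [overR_map φ F] at h
  exact h

lemma ev_iter_map {R R' : Type} [CommRing R] [CommRing R'] (φ : R →+* R') (x : Fin (N + 1) → R)
    (n : ℕ) : (ev R' F)^[n] (fun i => φ (x i)) = fun i => φ ((ev R F)^[n] x i) := by
  induction n with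
  | zero => rfl
  | succ n ih => rw [Function.iterate_succ_apply', ih, ev_map, Function.iterate_succ_apply']

lemma ev_iter_cong {A : Type} [CommRing A] (π : A) (x y : Fin (N + 1) → A) (h : Cong π 1 x y)
    (n : ℕ) : Cong π 1 ((ev A F)^[n] x) ((ev A F)^[n] y) := by
  have h1 : ∀ u v : Fin (N + 1) → A, Cong π 1 u v ↔
      (fun i => Ideal.Quotient.mk (Ideal.span {π}) (u i)) =
        fun i => Ideal.Quotient.mk (Ideal.span {π}) (v i) := by
    intro u v
    constructor
    · intro huv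
      funext i
      rw [Ideal.Quotient.eq, Ideal.mem_span_singleton]
      have := huv i
      rwa [pow_one] at this
    · intro huv i
      have h2 := congrFun huv i
      rw [Ideal.Quotient.eq, Ideal.mem_span_singleton] at h2
      rwa [pow_one]
  rw [h1] at h ⊢
  rw [← ev_iter_map, ← ev_iter_map, h]

lemma period_mul {A : Type} [CommRing A] (hF : ∀ i, (F i).IsHomogeneous d) (y : Fin (N + 1) → A)
    (n : ℕ) (c : A) (hc : IsUnit c) (h : (ev A F)^[n] y = c • y) (k : ℕ) :
    ∃ c' : A, IsUnit c' ∧ (ev A F)^[n * k] y = c' • y := by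
  induction k with
  | zero => exact ⟨1, isUnit_one, by simp⟩
  | succ k ih =>
    obtain ⟨c', hc', hk⟩ := ih
    refine ⟨c' ^ d ^ n * c, (hc'.pow _).mul hc, ?_⟩
    rw [Nat.mul_succ, Nat.add_comm (n * k) n, Function.iterate_add_apply, hk, ev_iter_smul hF, h,
      smul_smul]

lemma prim_cong {A : Type} [CommRing A] [IsDomain A] [IsDiscreteValuationRing A] {π : A}
    (hπ : Irreducible π) {n : ℕ} (x y : Fin n → A) (h : Cong π 1 x y) (hy : Prim y) : Prim x := by
  obtain ⟨i, hi⟩ := hy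
  refine ⟨i, ?_⟩
  by_contra hx
  have h1 : π ∣ x i := by
    have h2 : x i ∈ IsLocalRing.maximalIdeal A := hx
    rwa [hπ.maximalIdeal_eq, Ideal.mem_span_singleton] at h2
  have h2 := h i
  rw [pow_one] at h2
  have h3 : π ∣ y i := by
    have := dvd_sub h1 h2
    rwa [sub_sub_cancel] at this
  exact hπ.not_isUnit (isUnit_of_dvd_unit h3 hi)

lemma rper_cong {A : Type} [CommRing A] (π : A) (x y : Fin (N + 1) → A) (h : Cong π 1 x y)
    (hy : RPer π F y) : RPer π F x := by
  obtain ⟨m, hm, c, hc, h1⟩ := hy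
  refine ⟨m, hm, c, hc, ?_⟩
  intro i
  have h2 := ev_iter_cong (F := F) π x y h m i
  have h3 := h1 i
  have h4 := h i
  have h5 : π ^ 1 ∣ c * (y i - x i) := by
    have h6 : c * (y i - x i) = -(c * (x i - y i)) := by ring
    rw [h6]
    exact (dvd_mul_of_dvd_right h4 c).neg_right
  have h6 : (ev A F)^[m] x i - (c • x) i = ((ev A F)^[m] x i - (ev A F)^[m] y i) +
      ((ev A F)^[m] y i - (c • y) i) + c * (y i - x i) := by
    simp only [Pi.smul_apply, smul_eq_mul]
    ring
  rw [h6]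
  exact dvd_add (dvd_add h2 h3) h5

/-- Primitive coordinates of a point. -/
lemma exists_prim {K A : Type} [Field K] [CommRing A] [IsDomain A] [IsDiscreteValuationRing A]
    [Algebra A K] [IsFractionRing A K] (π : A) (hπ : Irreducible π) {n : ℕ} (x : Fin n → K)
    (hx : x ≠ 0) : ∃ (z : Fin n → A) (t : K), t ≠ 0 ∧ Prim z ∧
      x = t • (fun i => algebraMap A K (z i)) := by
  classical
  obtain ⟨b, hb⟩ := IsLocalization.exist_integer_multiples_of_finite (nonZeroDivisors A) x
  choose y hy using hb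
  have hb0 : algebraMap A K b ≠ 0 :=
    IsFractionRing.to_map_ne_zero_of_mem_nonZeroDivisors b.2
  have hy' : ∀ i, algebraMap A K (y i) = algebraMap A K b * x i := by
    intro i
    rw [hy i, Algebra.smul_def]
  obtain ⟨i0, hi0⟩ : ∃ i, x i ≠ 0 := by
    by_contra h
    push Not at h
    exact hx (funext h)
  have hyi0 : y i0 ≠ 0 := by
    intro h
    have := hy' i0
    rw [h, map_zero] at this
    exact mul_ne_zero hb0 hi0 this.symm
  -- the largest power of `π` dividing all coordinates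
  have hbd : ∃ k, ¬ ∀ i, π ^ k ∣ y i := by
    obtain ⟨k, u, hk⟩ := IsDiscreteValuationRing.eq_unit_mul_pow_irreducible hyi0 hπ
    refine ⟨k + 1, fun h => ?_⟩
    have h1 := h i0
    rw [hk, pow_succ, mul_comm (u : A)] at h1
    have h2 : π ∣ (u : A) := (mul_dvd_mul_iff_left (pow_ne_zero k hπ.ne_zero)).1 h1
    exact hπ.not_isUnit (isUnit_of_dvd_unit h2 u.isUnit)
  have hk0 : 0 < Nat.find hbd := by
    rw [Nat.find_pos]
    push Not
    intro i
    rw [pow_zero]
    exact one_dvd _
  obtain ⟨k, hk⟩ : ∃ k, Nat.find hbd = k + 1 := ⟨Nat.find hbd - 1, by omega⟩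
  have hdiv : ∀ i, π ^ k ∣ y i := by
    have := Nat.find_min hbd (m := k) (by omega)
    push Not at this
    exact this
  choose z hz using hdiv
  have hprim : Prim z := by
    by_contra h
    apply Nat.find_spec hbd
    intro i
    rw [hk, hz i, pow_succ]
    apply mul_dvd_mul_left
    have h1 : ¬ IsUnit (z i) := fun hu => h ⟨i, hu⟩
    have h2 : z i ∈ IsLocalRing.maximalIdeal A := h1
    rwa [hπ.maximalIdeal_eq, Ideal.mem_span_singleton] at h2
  have hπK : algebraMap A K π ≠ 0 := by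
    intro h
    rw [← map_zero (algebraMap A K)] at h
    exact hπ.ne_zero (IsFractionRing.injective A K h)
  refine ⟨z, algebraMap A K π ^ k / algebraMap A K b, div_ne_zero (pow_ne_zero _ hπK) hb0, hprim,
    ?_⟩
  funext i
  have h1 := hy' i
  rw [hz i, map_mul, map_pow] at h1
  simp only [Pi.smul_apply, smul_eq_mul]
  field_simp
  linear_combination -h1

end

theorem bound (hLoc : TaskLoc) (hTail : TaskTail) (hPerm : TaskPerm) (hRes : TaskRes)
    (hNorm : TaskNorm) (hIt : TaskIt) (hNF : TaskNF) (hCnt : TaskCnt)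
    (p N d s : ℕ) (hd : 2 ≤ d) (hp : p.Prime) (D : ℕ) :
    ∃ C : ℕ, ∀ F : Fin (N + 1) → MvPolynomial (Fin (N + 1)) ℤ, (∀ i, (F i).IsHomogeneous d) →
      ModP p N F → (∀ (k : Type) [Field k] [CharZero k], MonIn s (overR k F)) →
      ∀ (K : Type) [Field K] [NumberField K], Module.finrank ℚ K ≤ D →
      ∀ X : Finset (Fin (N + 1) → K), (∀ x ∈ X, x ≠ 0) →
        (∀ x ∈ X, ∀ y ∈ X, ∀ c : K, x = c • y → x = y) →
        (∀ x ∈ X, ∃ m n : ℕ, m < n ∧ ∃ c : K, c ≠ 0 ∧
          (ev K F)^[n] x = c • (ev K F)^[m] x) → X.card ≤ C := by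
  classical
  set b : ℕ := (p ^ (D * 1)) ^ (N + 1) with hb
  set w : ℕ := (p ^ (D * (2 * (D + 1)))) ^ (N + 1) with hw
  obtain ⟨C, hC⟩ := hCnt N s b w.factorial (Nat.factorial_pos _)
  refine ⟨C, ?_⟩
  intro F hF hMod hMon K _ _ hK X hX0 hXp hX
  obtain ⟨A, _, _, _, _, _, π, hπ, hπp, hq, hfin⟩ := hNF K D hK p hp
  have hgood : GoodA π F := hLoc A π hπ p hp hπp N d F hd hF hMod
  apply hC K d hd (overR K F) (fun i => (hF i).map _) (hMon K) X hX0 hXp
  intro x hx
  obtain ⟨z, t, ht, hz, hzx⟩ := exists_prim (A := A) π hπ x (hX0 x hx)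
  obtain ⟨m, n, hmn, c, hc, hrel⟩ := hX x hx
  have hinj : Function.Injective (algebraMap A K) := IsFractionRing.injective A K
  have hprimit : ∀ n, Prim ((ev A F)^[n] z) := by
    intro n
    induction n with
    | zero => exact hz
    | succ n ih =>
      rw [Function.iterate_succ_apply']
      exact hgood.1 _ ih
  -- iterates of `x`
  have hxit : ∀ n, (ev K F)^[n] x =
      t ^ d ^ n • (fun i => algebraMap A K ((ev A F)^[n] z i)) := by
    intro n
    rw [hzx, ev_iter_smul hF, ev_iter_map]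
  -- the relation for `z`
  obtain ⟨u, hu, hrelz⟩ : ∃ u : A, IsUnit u ∧ (ev A F)^[n] z = u • (ev A F)^[m] z := by
    obtain ⟨i, hi⟩ := hprimit m
    obtain ⟨i', hi'⟩ := hprimit n
    have h1 : ∀ j, algebraMap A K ((ev A F)^[n] z j) =
        (c * t ^ d ^ m / t ^ d ^ n) * algebraMap A K ((ev A F)^[m] z j) := by
      intro j
      have h2 := congrFun hrel j
      rw [hxit, hxit] at h2
      simp only [Pi.smul_apply, smul_eq_mul] at h2
      have h3 : t ^ d ^ n ≠ 0 := pow_ne_zero _ ht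
      field_simp
      linear_combination h2
    obtain ⟨v, hv⟩ := hi
    have h2 : c * t ^ d ^ m / t ^ d ^ n =
        algebraMap A K ((ev A F)^[n] z i * ((v⁻¹ : Aˣ) : A)) := by
      rw [map_mul, h1 i, ← hv, mul_assoc, ← map_mul, Units.mul_inv, map_one, mul_one]
    refine ⟨(ev A F)^[n] z i * ((v⁻¹ : Aˣ) : A), ?_, ?_⟩
    · have h3 : (ev A F)^[n] z i' = ((ev A F)^[n] z i * ((v⁻¹ : Aˣ) : A)) * (ev A F)^[m] z i' := by
        apply hinj
        rw [h1 i', h2, map_mul (algebraMap A K) (_ * _)]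
      rw [h3] at hi'
      exact isUnit_of_mul_isUnit_left hi'
    · funext j
      apply hinj
      rw [h1 j, h2, Pi.smul_apply, smul_eq_mul, map_mul (algebraMap A K) (_ * _)]
  -- after `b` steps
  obtain ⟨hyP, hyR⟩ := hRes A π hπ N d F hF hgood b (hfin 1).1
    (Nat.pow_le_pow_left (hfin 1).2 _) z hz
  set y := (ev A F)^[b] z with hy
  have hypre : (ev A F)^[n] y = u ^ d ^ b • (ev A F)^[m] y := by
    rw [hy, ← Function.iterate_add_apply, ← Function.iterate_add_apply, Nat.add_comm n b,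
      Nat.add_comm m b, Function.iterate_add_apply, Function.iterate_add_apply, hrelz,
      ev_iter_smul hF]
  obtain ⟨n1, hn1, c1, hc1, hper⟩ := hTail A π hπ N d F hF hgood y hyP hyR
    ⟨m, n, hmn, u ^ d ^ b, hu.pow _, hypre⟩
  obtain ⟨Q, hQh, hQ⟩ := hIt A (N + 1) d (overR A F) (fun i => (hF i).map _) w.factorial
  have hQ' : pt Q = (ev A F)^[w.factorial] := funext hQ
  obtain ⟨c2, hc2, hfix⟩ := hNorm A π hπ (N + 1) D hq (d ^ w.factorial) Q hQh y hyP (by
      intro z' hz'
      obtain ⟨l, hl, h1⟩ := hPerm A π hπ N d F hF hgood (2 * (D + 1)) w (hfin _).1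
        (Nat.pow_le_pow_left (hfin _).2 _) (by omega) z' (prim_cong hπ z' y hz' hyP)
        (rper_cong π z' y hz' hyR)
      refine ⟨l, hl, ?_⟩
      rw [hQ']
      exact h1) n1 hn1 (by
      obtain ⟨c', hc', h1⟩ := period_mul hF y n1 c1 hc1 hper w.factorial
      refine ⟨c', hc', ?_⟩
      rw [hQ', ← Function.iterate_mul, Nat.mul_comm, h1])
  rw [hQ'] at hfix
  -- back to `x`
  obtain ⟨i, hi⟩ := hyP
  have htne : ∀ k : ℕ, t ^ d ^ k ≠ 0 := fun k => pow_ne_zero _ ht
  have hc2K : algebraMap A K c2 ≠ 0 := (hc2.map (algebraMap A K)).ne_zero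
  refine ⟨t ^ d ^ (b + w.factorial) / t ^ d ^ b * algebraMap A K c2,
    mul_ne_zero (div_ne_zero (htne _) (htne _)) hc2K, ?_⟩
  have h5 : (ev K F)^[b + w.factorial] x = (t ^ d ^ (b + w.factorial) / t ^ d ^ b *
      algebraMap A K c2) • (ev K F)^[b] x := by
    rw [hxit, hxit]
    funext j
    have h6 : (ev A F)^[b + w.factorial] z = c2 • (ev A F)^[b] z := by
      rw [Nat.add_comm b w.factorial, Function.iterate_add_apply]
      exact hfix
    rw [h6]
    simp only [Pi.smul_apply, smul_eq_mul, map_mul]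
    have := htne b
    field_simp
  exact h5

end H294UB.Asm
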