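import Pool.Agent.H294UB.Stmts
import Pool.Agent.H294DM.Mob

set_option autoImplicit false

/-! Task Mon of the project H294-UB (helper2). -/

namespace H294UB

open MvPolynomial Pool.Agent.H936R2 Pool.Agent.H927R2.RD H294DM

namespace Mon

theorem TT_mem {k : Type} [Field k] (N d : ℕ) (ζ : k) (h1 : ζ ≠ 1) (l : Fin (N + 1)) :
    TT N d ζ l ∈ Ideal.span (Set.range (GG N d ζ)) := by
  have hdet : (mob N (1 - ζ)).det ≠ 0 := taskMob.2 k N (1 - ζ) (sub_ne_zero.2 h1.symm)
  have hu : IsUnit (mob N (1 - ζ)).det := isUnit_iff_ne_zero.2 hdet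
  have hB : (mob N (1 - ζ))⁻¹ * mob N (1 - ζ) = 1 := Matrix.nonsing_inv_mul _ hu
  have h2 : TT N d ζ l = ∑ j, C ((mob N (1 - ζ))⁻¹ l j) * GG N d ζ j := by
    unfold GG
    simp only [Finset.mul_sum]
    rw [Finset.sum_comm]
    have h3 : ∀ l' : Fin (N + 1), ∑ j, C ((mob N (1 - ζ))⁻¹ l j) *
        (C (mob N (1 - ζ) j l') * TT N d ζ l') =
        C ((1 : Matrix (Fin (N + 1)) (Fin (N + 1)) k) l l') * TT N d ζ l' := by
      intro l'
      rw [← hB, Matrix.mul_apply, map_sum, Finset.sum_mul]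
      refine Finset.sum_congr rfl fun j _ => ?_
      rw [map_mul]
      ring
    rw [Finset.sum_congr rfl fun l' _ => h3 l', Finset.sum_eq_single l]
    · simp
    · intro l' _ hne
      rw [Matrix.one_apply_ne hne.symm]
      simp
    · intro h
      exact absurd (Finset.mem_univ l) h
  rw [h2]
  exact Ideal.sum_mem _ fun j _ => Ideal.mul_mem_left _ _ (Ideal.subset_span ⟨j, rfl⟩)

theorem lin_coeff {R : Type} [CommRing R] (N : ℕ) (u : R) (l : Fin (N + 1)) :
    (lin N u).coeff (l : ℕ) = C (u ^ (l : ℕ)) * X l := by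
  unfold lin
  rw [Polynomial.finsetSum_coeff, Finset.sum_eq_single l]
  · rw [Polynomial.coeff_C_mul_X_pow, if_pos rfl]
  · intro j _ hj
    rw [Polynomial.coeff_C_mul_X_pow, if_neg]
    intro h
    exact hj (Fin.ext h.symm)
  · intro h
    exact absurd (Finset.mem_univ l) h

theorem prod_coeff {S : Type} [CommRing S] (d l : ℕ) (p : ℕ → Polynomial S)
    (hp : ∀ i, ∀ m < l, (p i).coeff m = 0) :
    (∏ i ∈ Finset.range d, p i).coeff (d * l) = ∏ i ∈ Finset.range d, (p i).coeff l := by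
  have h1 : ∀ i, ∃ r : Polynomial S, p i = Polynomial.X ^ l * r := fun i =>
    Polynomial.X_pow_dvd_iff.2 (hp i)
  choose r hr using h1
  have h2 : ∏ i ∈ Finset.range d, p i = Polynomial.X ^ (d * l) * ∏ i ∈ Finset.range d, r i := by
    rw [Finset.prod_congr rfl fun i _ => hr i, Finset.prod_mul_distrib, Finset.prod_const,
      Finset.card_range, ← pow_mul, mul_comm l d]
  have h3 : ∀ i, (p i).coeff l = Polynomial.constantCoeff (r i) := by
    intro i
    have := Polynomial.coeff_X_pow_mul (r i) l 0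
    rw [zero_add] at this
    rw [hr i, this]
    rfl
  rw [h2, Finset.prod_congr rfl fun i _ => h3 i, ← map_prod]
  have := Polynomial.coeff_X_pow_mul (∏ i ∈ Finset.range d, r i) (d * l) 0
  rw [zero_add] at this
  rw [this]
  rfl

theorem X_mem {k : Type} [Field k] (N d : ℕ) (ζ : k) (h0 : ζ ≠ 0) (h1 : ζ ≠ 1) :
    ∀ n : ℕ, ∀ l : Fin (N + 1), (l : ℕ) = n →
      (X l : MvPolynomial (Fin (N + 1)) k) ∈ (Ideal.span (Set.range (GG N d ζ))).radical := by
  intro n
  induction n using Nat.strong_induction_on with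
  | _ n ih =>
    intro l hl
    set J := (Ideal.span (Set.range (GG N d ζ))).radical with hJ
    have hlow : ∀ m : ℕ, m < (l : ℕ) → ∀ i : ℕ,
        (((lin N (ζ ^ i)).map (Ideal.Quotient.mk J)).coeff m) = 0 := by
      intro m hm i
      have hmN : m < N + 1 := by omega
      have h2 := lin_coeff N (ζ ^ i) (⟨m, hmN⟩ : Fin (N + 1))
      rw [Polynomial.coeff_map]
      simp only at h2
      rw [h2, Ideal.Quotient.eq_zero_iff_mem]
      exact Ideal.mul_mem_left _ _ (ih m (by omega) ⟨m, hmN⟩ rfl)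
    have h2 := prod_coeff d (l : ℕ) (fun i => (lin N (ζ ^ i)).map (Ideal.Quotient.mk J))
      (fun i m hm => hlow m hm i)
    have h3 : (∏ i ∈ Finset.range d, (lin N (ζ ^ i)).map (Ideal.Quotient.mk J)).coeff
        (d * (l : ℕ)) = Ideal.Quotient.mk J (TT N d ζ l) := by
      unfold TT WW
      rw [← Polynomial.map_prod, Polynomial.coeff_map]
    have h4 : Ideal.Quotient.mk J (TT N d ζ l) = 0 := by
      rw [Ideal.Quotient.eq_zero_iff_mem]
      exact Ideal.le_radical (TT_mem N d ζ h1 l)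
    rw [h3, h4] at h2
    have h5 : (∏ i ∈ Finset.range d, ((lin N (ζ ^ i)).map (Ideal.Quotient.mk J)).coeff (l : ℕ)) =
        Ideal.Quotient.mk J (C (∏ i ∈ Finset.range d, (ζ ^ i) ^ (l : ℕ)) * X l ^ d) := by
      rw [map_mul, map_pow, map_prod, map_prod]
      have h6 : ∀ i, ((lin N (ζ ^ i)).map (Ideal.Quotient.mk J)).coeff (l : ℕ) =
          Ideal.Quotient.mk J (C ((ζ ^ i) ^ (l : ℕ))) * Ideal.Quotient.mk J (X l) := by
        intro i
        rw [Polynomial.coeff_map, lin_coeff, map_mul]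
      rw [Finset.prod_congr rfl fun i _ => h6 i, Finset.prod_mul_distrib, Finset.prod_const,
        Finset.card_range]
    rw [h5] at h2
    have h7 : C (∏ i ∈ Finset.range d, (ζ ^ i) ^ (l : ℕ)) * X l ^ d ∈ J :=
      Ideal.Quotient.eq_zero_iff_mem.1 h2.symm
    have hc : (∏ i ∈ Finset.range d, (ζ ^ i) ^ (l : ℕ)) ≠ 0 :=
      Finset.prod_ne_zero_iff.2 fun i _ => pow_ne_zero _ (pow_ne_zero _ h0)
    have h8 : (X l : MvPolynomial (Fin (N + 1)) k) ^ d ∈ J := by
      have h9 := Ideal.mul_mem_left J (C (∏ i ∈ Finset.range d, (ζ ^ i) ^ (l : ℕ))⁻¹) h7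
      rw [← mul_assoc, ← map_mul, inv_mul_cancel₀ hc, map_one, one_mul] at h9
      exact h9
    have h10 : J.IsRadical := Ideal.radical_isRadical _
    exact h10 ⟨d, h8⟩

theorem monomial_mem {k : Type} [Field k] (n : ℕ) (μ : Fin n →₀ ℕ) :
    monomial μ (1 : k) ∈ (Ideal.span (Set.range (X : Fin n → MvPolynomial (Fin n) k))) ^
      μ.degree := by
  rw [Finsupp.degree_eq_sum, monomial_eq, map_one, one_mul,
    Finsupp.prod_fintype _ _ (fun i => pow_zero _), ← Finset.prod_pow_eq_pow_sum]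
  exact Ideal.prod_mem_prod fun i _ =>
    Ideal.pow_mem_pow (Ideal.subset_span (Set.mem_range_self i)) _

end Mon

theorem taskMon : TaskMon := by
  intro k _ N d ζ _ h0 h1
  have hle : Ideal.span (Set.range (X : Fin (N + 1) → MvPolynomial (Fin (N + 1)) k)) ≤
      (Ideal.span (Set.range (GG N d ζ))).radical := by
    rw [Ideal.span_le]
    rintro _ ⟨l, rfl⟩
    exact Mon.X_mem N d ζ h0 h1 l l rfl
  have hfg : (Ideal.span (Set.range (X : Fin (N + 1) → MvPolynomial (Fin (N + 1)) k))).FG :=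
    IsNoetherian.noetherian _
  obtain ⟨s, hs⟩ := Ideal.exists_pow_le_of_le_radical_of_fg hle hfg
  refine ⟨s, fun μ hμ => hs ?_⟩
  rw [← hμ]
  exact Mon.monomial_mem (N + 1) μ

end H294UB
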