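import Pool.Agent.H294UB.Stmts

set_option autoImplicit false
set_option linter.style.haveILetI false
set_option linter.unusedSectionVars false

namespace H294UB

namespace NFaux

variable {O : Type} [CommRing O] [IsDomain O]

lemma inv_mod {P : Ideal O} (hP : P.IsMaximal) (j : ℕ) (s : O) (hs : s ∉ P) :
    ∃ t : O, 1 - s * t ∈ P ^ j := by
  have h1 : IsCoprime (Ideal.span {s}) P := by
    rw [Ideal.isCoprime_iff_sup_eq]
    by_contra h
    have h2 := hP.eq_of_le h le_sup_right
    apply hs
    rw [h2]
    exact Ideal.mem_sup_left (Ideal.mem_span_singleton_self s)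
  obtain ⟨i, hi, k, hk, hik⟩ := Ideal.isCoprime_iff_exists.1 (h1.pow_right (n := j))
  obtain ⟨t, rfl⟩ := Ideal.mem_span_singleton'.1 hi
  refine ⟨t, ?_⟩
  have h3 : 1 - s * t = k := by rw [← hik]; ring
  rw [h3]; exact hk

lemma surj_mod (P : Ideal O) [hP : P.IsMaximal] [IsDiscreteValuationRing (Localization.AtPrime P)]
    (π : Localization.AtPrime P) (hπ : Irreducible π) (j : ℕ) :
    Function.Surjective ((Ideal.Quotient.mk (Ideal.span {π ^ j})).comp
      (algebraMap O (Localization.AtPrime P))) := by
  intro y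
  obtain ⟨x, rfl⟩ := Ideal.Quotient.mk_surjective y
  obtain ⟨⟨a, s⟩, hx⟩ := IsLocalization.surj P.primeCompl x
  obtain ⟨t, ht⟩ := inv_mod hP j (s : O) s.2
  refine ⟨a * t, ?_⟩
  rw [RingHom.comp_apply, Ideal.Quotient.eq]
  have h1 : algebraMap O (Localization.AtPrime P) (1 - s * t) ∈ Ideal.span {π ^ j} := by
    have h2 := Ideal.mem_map_of_mem (algebraMap O (Localization.AtPrime P)) ht
    rw [Ideal.map_pow, Localization.AtPrime.map_eq_maximalIdeal, hπ.maximalIdeal_eq,
      Ideal.span_singleton_pow] at h2
    exact h2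
  have h3 : algebraMap O (Localization.AtPrime P) (a * t) - x =
      -x * algebraMap O (Localization.AtPrime P) (1 - s * t) := by
    rw [map_mul, ← hx, map_sub, map_one, map_mul]
    ring
  rw [h3]
  exact Ideal.mul_mem_left _ _ h1

lemma card_le (P : Ideal O) [hP : P.IsMaximal] [IsDiscreteValuationRing (Localization.AtPrime P)]
    (π : Localization.AtPrime P) (hπ : Irreducible π) (j : ℕ) (a : O)
    (ha : Finite (O ⧸ Ideal.span {a})) (h : π ^ j ∣ algebraMap O (Localization.AtPrime P) a) :
    Finite (Localization.AtPrime P ⧸ Ideal.span {π ^ j}) ∧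
      Nat.card (Localization.AtPrime P ⧸ Ideal.span {π ^ j}) ≤ Nat.card (O ⧸ Ideal.span {a}) := by
  let f := (Ideal.Quotient.mk (Ideal.span {π ^ j})).comp (algebraMap O (Localization.AtPrime P))
  have hf : ∀ x ∈ Ideal.span {a}, f x = 0 := by
    intro x hx
    obtain ⟨y, rfl⟩ := Ideal.mem_span_singleton'.1 hx
    show (Ideal.Quotient.mk (Ideal.span {π ^ j})) (algebraMap O _ (y * a)) = 0
    rw [Ideal.Quotient.eq_zero_iff_mem, map_mul]
    exact Ideal.mul_mem_left _ _ (Ideal.mem_span_singleton.2 h)
  have hs : Function.Surjective (Ideal.Quotient.lift (Ideal.span {a}) f hf) :=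
    Ideal.Quotient.lift_surjective_of_surjective _ hf (surj_mod P π hπ j)
  exact ⟨Finite.of_surjective _ hs, Nat.card_le_card_of_surjective _ hs⟩

end NFaux

open NFaux in
theorem taskNF : TaskNF := by
  intro K _ _ D hD p hp
  haveI : Fact p.Prime := ⟨hp⟩
  set O := NumberField.RingOfIntegers K with hO
  have hrank : Module.finrank ℤ O = Module.finrank ℚ K := NumberField.RingOfIntegers.rank K
  have hpos : 0 < Module.finrank ℚ K := Module.finrank_pos
  have hpnorm : Ideal.absNorm (Ideal.span {((p : ℕ) : O)}) = p ^ Module.finrank ℚ K := by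
    rw [Ideal.absNorm_span_natCast, hrank]
  have hpfin : Finite (O ⧸ Ideal.span {((p : ℕ) : O)}) := by
    rw [← Ideal.absNorm_ne_zero_iff, hpnorm]
    exact pow_ne_zero _ hp.ne_zero
  have hpcard : Nat.card (O ⧸ Ideal.span {((p : ℕ) : O)}) = p ^ Module.finrank ℚ K := by
    rw [← hpnorm, Ideal.absNorm_apply, Submodule.cardQuot_apply]
  have hpD : Nat.card (O ⧸ Ideal.span {((p : ℕ) : O)}) ≤ p ^ D := by
    rw [hpcard]
    exact Nat.pow_le_pow_right hp.pos hD
  have hne : Ideal.span {((p : ℕ) : O)} ≠ ⊤ := by
    intro h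
    rw [h, Ideal.absNorm_top] at hpnorm
    exact absurd hpnorm.symm (Nat.one_lt_pow hpos.ne' hp.one_lt).ne'
  obtain ⟨P, hP, hle⟩ := Ideal.exists_le_maximal _ hne
  have hpP : ((p : ℕ) : O) ∈ P := hle (Ideal.mem_span_singleton_self _)
  have hP0 : P ≠ ⊥ := by
    intro h
    rw [h, Ideal.mem_bot] at hpP
    exact hp.ne_zero (by exact_mod_cast hpP)
  haveI := hP
  haveI : P.IsPrime := hP.isPrime
  haveI hdvr : IsDiscreteValuationRing (Localization.AtPrime P) :=
    IsLocalization.AtPrime.isDiscreteValuationRing_of_dedekind_domain O hP0 _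
  letI alg : Algebra (Localization.AtPrime P) K :=
    IsLocalization.localizationAlgebraOfSubmonoidLe (Localization.AtPrime P) K P.primeCompl
      (nonZeroDivisors O) P.primeCompl_le_nonZeroDivisors
  haveI tower : IsScalarTower O (Localization.AtPrime P) K :=
    IsLocalization.localization_isScalarTower_of_submonoid_le (Localization.AtPrime P) K
      P.primeCompl (nonZeroDivisors O) P.primeCompl_le_nonZeroDivisors
  haveI frac : IsFractionRing (Localization.AtPrime P) K :=
    IsFractionRing.isFractionRing_of_isDomain_of_isLocalization P.primeCompl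
      (Localization.AtPrime P) K
  obtain ⟨π, hπ⟩ := IsDiscreteValuationRing.exists_irreducible (Localization.AtPrime P)
  have hmem : ∀ a : O, a ∈ P → π ∣ algebraMap O (Localization.AtPrime P) a := by
    intro a ha
    have h1 := Ideal.mem_map_of_mem (algebraMap O (Localization.AtPrime P)) ha
    rw [Localization.AtPrime.map_eq_maximalIdeal, hπ.maximalIdeal_eq] at h1
    exact Ideal.mem_span_singleton.1 h1
  have hcast : ∀ q : ℕ, algebraMap O (Localization.AtPrime P) (q : O) =
      (q : Localization.AtPrime P) := fun q => map_natCast _ q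
  have hπp : π ∣ (p : Localization.AtPrime P) := by
    rw [← hcast]; exact hmem _ hpP
  have h1 := card_le P π hπ 1 ((p : ℕ) : O) hpfin (by rw [pow_one, hcast]; exact hπp)
  have hspan : ∀ j : ℕ, Nat.card (Localization.AtPrime P ⧸ Ideal.span {π ^ j}) =
      Nat.card (Localization.AtPrime P ⧸ Ideal.span {π ^ 1}) ^ j := by
    intro j
    haveI : (Ideal.span {π} : Ideal (Localization.AtPrime P)).IsPrime := by
      rw [← hπ.maximalIdeal_eq]
      exact (IsLocalRing.maximalIdeal.isMaximal _).isPrime
    have h2 : (Ideal.span {π} : Ideal (Localization.AtPrime P)) ≠ ⊥ := by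
      rw [Ne, Ideal.span_singleton_eq_bot]; exact hπ.ne_zero
    have h3 := cardQuot_pow_of_prime h2 (i := j)
    rw [Ideal.span_singleton_pow] at h3
    rw [pow_one]
    exact h3
  have hcpos : Nat.card (Localization.AtPrime P ⧸ Ideal.span {π ^ 1}) ≠ 0 := by
    haveI := h1.1
    exact Nat.card_pos.ne'
  have hge : p ≤ Nat.card (Localization.AtPrime P ⧸ Ideal.span {π ^ 1}) := by
    have hnt : (1 : Localization.AtPrime P ⧸ Ideal.span {π ^ 1}) ≠ 0 := by
      intro h
      have h2 : (Ideal.Quotient.mk (Ideal.span {π ^ 1})) 1 = 0 := by rw [map_one]; exact h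
      rw [Ideal.Quotient.eq_zero_iff_mem, Ideal.mem_span_singleton, pow_one] at h2
      exact hπ.not_isUnit (isUnit_of_dvd_one h2)
    have h0 : p • (1 : Localization.AtPrime P ⧸ Ideal.span {π ^ 1}) = 0 := by
      rw [nsmul_eq_mul, mul_one]
      have h2 : (Ideal.Quotient.mk (Ideal.span {π ^ 1})) (p : Localization.AtPrime P) = 0 := by
        rw [Ideal.Quotient.eq_zero_iff_mem, Ideal.mem_span_singleton, pow_one]
        exact hπp
      rwa [map_natCast] at h2
    have h2 := addOrderOf_eq_prime h0 hnt
    have h3 := addOrderOf_dvd_natCard (1 : Localization.AtPrime P ⧸ Ideal.span {π ^ 1})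
    rw [h2] at h3
    exact Nat.le_of_dvd (Nat.pos_of_ne_zero hcpos) h3
  refine ⟨Localization.AtPrime P, inferInstance, inferInstance, hdvr, alg, frac, π, hπ, hπp, ?_, ?_⟩
  · intro q hq hdvd
    by_cases hqp : q = p
    · subst hqp
      have hq0 : (q : Localization.AtPrime P) ≠ 0 := by
        intro h
        have h2 : algebraMap (Localization.AtPrime P) K (q : Localization.AtPrime P) = 0 := by
          rw [h, map_zero]
        rw [map_natCast] at h2
        exact hq.ne_zero (by exact_mod_cast h2)
      obtain ⟨m, hm⟩ := IsDiscreteValuationRing.associated_pow_irreducible hq0 hπ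
      have hm1 : D + 1 ≤ m := by
        have h2 : π ^ (D + 1) ∣ π ^ m := hdvd.trans hm.dvd
        exact (pow_dvd_pow_iff hπ.ne_zero hπ.not_isUnit).1 h2
      have h3 := (card_le P π hπ m ((q : ℕ) : O) hpfin (by rw [hcast]; exact hm.symm.dvd)).2
      rw [hspan m] at h3
      have h4 : q ^ (D + 1) ≤ q ^ D := calc
        q ^ (D + 1) ≤ q ^ m := Nat.pow_le_pow_right hq.pos hm1
        _ ≤ Nat.card (Localization.AtPrime P ⧸ Ideal.span {π ^ 1}) ^ m :=
            Nat.pow_le_pow_left hge m
        _ ≤ _ := h3.trans hpD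
      exact absurd h4 (not_le.2 (Nat.pow_lt_pow_right hq.one_lt (Nat.lt_succ_self D)))
    · have hqP : ((q : ℕ) : O) ∉ P := by
        intro h
        have hc : IsCoprime (q : ℤ) (p : ℤ) := by
          rw [Nat.isCoprime_iff_coprime]
          exact (Nat.coprime_primes hq hp).2 hqp
        obtain ⟨a, b, hab⟩ := hc
        have h2 : (1 : O) ∈ P := by
          have h3 : (1 : O) = (a : O) * (q : O) + (b : O) * (p : O) := by
            have h4 := congrArg (Int.castRingHom O) hab
            rw [map_add, map_mul, map_mul, map_one, map_natCast, map_natCast] at h4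
            exact h4.symm
          rw [h3]
          exact P.add_mem (P.mul_mem_left _ h) (P.mul_mem_left _ hpP)
        exact hP.ne_top ((Ideal.eq_top_iff_one P).2 h2)
      have hu : IsUnit (q : Localization.AtPrime P) := by
        rw [← hcast]
        exact IsLocalization.map_units (Localization.AtPrime P) (⟨(q : O), hqP⟩ : P.primeCompl)
      have h2 : π ∣ (q : Localization.AtPrime P) := (dvd_pow_self π (Nat.succ_ne_zero D)).trans hdvd
      exact hπ.not_isUnit (isUnit_of_dvd_unit h2 hu)
  · intro j
    constructor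
    · apply Nat.finite_of_card_ne_zero
      rw [hspan j]
      exact pow_ne_zero _ hcpos
    · rw [hspan j, pow_mul]
      exact Nat.pow_le_pow_left (h1.2.trans hpD) j

end H294UB
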