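import Pool.Agent.H294UB.Stmts

/-! helper826: task Norm of project H294-UB. -/

set_option autoImplicit false

namespace H294UB

open MvPolynomial Pool.Agent.H936R2 Pool.Agent.H927R2.RD H294DM

namespace NormAux

lemma eval_smul_hom' {A : Type} [CommRing A] {n D : ℕ} {G : MvPolynomial (Fin n) A}
    (hG : G.IsHomogeneous D) (t : A) (x : Fin n → A) : eval (t • x) G = t ^ D * eval x G := by
  rw [eval_eq, eval_eq, Finset.mul_sum]
  refine Finset.sum_congr rfl fun d hd => ?_
  have hdeg : ∑ i ∈ d.support, d i = D := by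
    have h1 := hG (MvPolynomial.mem_support_iff.1 hd)
    rw [Finsupp.weight_apply, Finsupp.sum] at h1
    simpa using h1
  simp only [Pi.smul_apply, smul_eq_mul, mul_pow, Finset.prod_mul_distrib]
  rw [Finset.prod_pow_eq_pow_sum, hdeg]
  ring

lemma pt_smul' {A : Type} [CommRing A] {n D : ℕ} {P : Fin n → MvPolynomial (Fin n) A}
    (hP : ∀ i, (P i).IsHomogeneous D) (t : A) (x : Fin n → A) :
    pt P (t • x) = t ^ D • pt P x := by
  funext i
  exact eval_smul_hom' (hP i) t x

lemma iter_smul {A : Type} [CommRing A] {n D : ℕ} {P : Fin n → MvPolynomial (Fin n) A}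
    (hP : ∀ i, (P i).IsHomogeneous D) (t : A) (ht : IsUnit t) (x : Fin n → A) (m : ℕ) :
    ∃ a : A, IsUnit a ∧ (pt P)^[m] (t • x) = a • (pt P)^[m] x := by
  induction m with
  | zero => exact ⟨t, ht, rfl⟩
  | succ m ih =>
    obtain ⟨a, ha, h⟩ := ih
    refine ⟨a ^ D, ha.pow D, ?_⟩
    rw [Function.iterate_succ_apply', h, pt_smul' hP, ← Function.iterate_succ_apply' (pt P)]

/-- Taylor formula -/
lemma taylor {A : Type} [CommRing A] {n : ℕ} (G : MvPolynomial (Fin n) A) (t : A)
    (z w : Fin n → A) : ∃ r : A, eval (fun i => z i + t * w i) G =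
      eval z G + t * (∑ j, eval z (pderiv j G) * w j) + t ^ 2 * r := by
  obtain ⟨r, hr⟩ := taylor_one t z w G
  refine ⟨r, ?_⟩
  simpa [MvPolynomial.coe_aeval_eq_eval] using hr

variable {A : Type} [CommRing A] [IsDomain A] [IsDiscreteValuationRing A]

lemma unit_of_dvd_sub {π : A} (hπ : Irreducible π) {a b : A} (hb : IsUnit b) (h : π ∣ a - b) :
    IsUnit a := by
  by_contra ha
  have hm : a ∈ IsLocalRing.maximalIdeal A := (IsLocalRing.mem_maximalIdeal a).2 ha
  rw [hπ.maximalIdeal_eq, Ideal.mem_span_singleton] at hm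
  have h2 : π ∣ b := by
    have := dvd_sub hm h
    rwa [sub_sub_cancel] at this
  exact hπ.not_isUnit (isUnit_of_dvd_unit h2 hb)

/-- the main case: `x i0 = 1` -/
theorem main (h : TaskAbs) {π : A} (hπ : Irreducible π) (n e : ℕ)
    (hq : ∀ q : ℕ, q.Prime → ¬ π ^ (e + 1) ∣ (q : A)) (D : ℕ)
    (P : Fin n → MvPolynomial (Fin n) A) (hP : ∀ i, (P i).IsHomogeneous D) (x : Fin n → A)
    (i0 : Fin n) (hx : x i0 = 1)
    (hcong : ∀ z : Fin n → A, Cong π 1 z x →
      ∃ l : A, IsUnit l ∧ Cong π (2 * (e + 1)) (pt P z) (l • z)) (m : ℕ) (hm : 0 < m)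
    (hper : ∃ c : A, IsUnit c ∧ (pt P)^[m] x = c • x) : ∃ c : A, IsUnit c ∧ pt P x = c • x := by
  have hπ0 : π ≠ 0 := hπ.ne_zero
  set U : Set (Fin n → A) := {z | z i0 = 1 ∧ Cong π 1 z x} with hU
  -- the factor and the congruence
  have hs : ∀ z ∈ U, IsUnit (pt P z i0) ∧
      Cong π (2 * (e + 1)) (pt P z) ((pt P z i0) • z) := by
    rintro z ⟨hz1, hz2⟩
    obtain ⟨l, hl, hc⟩ := hcong z hz2
    have h1 : π ^ (2 * (e + 1)) ∣ pt P z i0 - l := by
      have := hc i0
      rwa [Pi.smul_apply, hz1, smul_eq_mul, mul_one] at this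
    refine ⟨unit_of_dvd_sub hπ hl ((dvd_pow_self π (by omega)).trans h1), ?_⟩
    intro i
    have h2 := hc i
    simp only [Pi.smul_apply, smul_eq_mul] at h2 ⊢
    have h3 : pt P z i - pt P z i0 * z i = (pt P z i - l * z i) - (pt P z i0 - l) * z i := by ring
    rw [h3]
    exact dvd_sub h2 (h1.mul_right _)
  set Φ : (Fin n → A) → (Fin n → A) := fun z => Ring.inverse (pt P z i0) • pt P z with hΦ
  have hΦs : ∀ z ∈ U, pt P z = pt P z i0 • Φ z := by
    intro z hz
    simp only [hΦ]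
    rw [smul_smul, Ring.mul_inverse_cancel _ (hs z hz).1, one_smul]
  have hΦi0 : ∀ z ∈ U, Φ z i0 = 1 := by
    intro z hz
    simp only [hΦ, Pi.smul_apply, smul_eq_mul]
    exact Ring.inverse_mul_cancel _ (hs z hz).1
  have hΦc : ∀ z ∈ U, Cong π (2 * (e + 1)) (Φ z) z := by
    intro z hz i
    have h1 := (hs z hz).2 i
    rw [hΦs z hz] at h1
    simp only [Pi.smul_apply, smul_eq_mul] at h1
    rw [hΦi0 z hz, mul_one, ← mul_sub] at h1
    exact ((hs z hz).1.dvd_mul_left).1 h1
  have hΦU : ∀ z ∈ U, Φ z ∈ U := by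
    intro z hz
    refine ⟨hΦi0 z hz, fun i => ?_⟩
    have h1 : π ^ 1 ∣ Φ z i - z i := (pow_dvd_pow π (by omega)).trans (hΦc z hz i)
    have h2 := dvd_add h1 (hz.2 i)
    rwa [sub_add_sub_cancel] at h2
  have hxU : x ∈ U := ⟨hx, fun i => by rw [sub_self]; exact dvd_zero _⟩
  -- the derivative
  have hL : ∀ z ∈ U, ∀ w : Fin n → A, w i0 = 0 → ∀ i,
      π ^ (e + 1) ∣ (∑ j, eval z (pderiv j (P i)) * w j) - pt P z i0 * w i -
        (∑ j, eval z (pderiv j (P i0)) * w j) * z i := by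
    intro z hz w hw i
    have hz'' : (fun k => z k + π ^ (e + 1) * w k) ∈ U := by
      refine ⟨?_, fun k => ?_⟩
      · change z i0 + π ^ (e + 1) * w i0 = 1
        rw [hw, mul_zero, add_zero, hz.1]
      · have h1 : z k + π ^ (e + 1) * w k - x k = (z k - x k) + π ^ (e + 1) * w k := by ring
        rw [h1]
        exact dvd_add (hz.2 k) ((pow_dvd_pow π (by omega)).mul_right _)
    obtain ⟨r, hr⟩ := taylor (P i) (π ^ (e + 1)) z w
    obtain ⟨r0, hr0⟩ := taylor (P i0) (π ^ (e + 1)) z w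
    have h1 := (hs _ hz'').2 i
    have h2 := (hs _ hz).2 i
    simp only [Pi.smul_apply, smul_eq_mul, pt] at h1 h2 ⊢
    rw [hr, hr0] at h1
    obtain ⟨a, ha⟩ := h1
    obtain ⟨b, hb⟩ := h2
    have h3 : π ^ (e + 1) * ((∑ j, eval z (pderiv j (P i)) * w j) - eval z (P i0) * w i -
        (∑ j, eval z (pderiv j (P i0)) * w j) * z i) =
        π ^ (e + 1) * (π ^ (e + 1) * (a - b - r +
          (∑ j, eval z (pderiv j (P i0)) * w j) * w i + r0 * z i + r0 * π ^ (e + 1) * w i)) := by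
      have h4 : π ^ (2 * (e + 1)) = π ^ (e + 1) * π ^ (e + 1) := by rw [two_mul, pow_add]
      rw [h4] at ha hb
      linear_combination ha - hb
    exact ⟨_, mul_left_cancel₀ (pow_ne_zero _ hπ0) h3⟩
  -- the main estimate
  have hest : ∀ z ∈ U, ∀ z' ∈ U, ∀ v, e + 1 ≤ v → Cong π v z' z →
      ∀ i, π ^ (v + e + 1) ∣ (Φ z' i - Φ z i) - (z' i - z i) := by
    intro z hz z' hz' v hv hzz i
    choose w hw using hzz
    have hw0 : w i0 = 0 := by
      have h1 := hw i0
      rw [hz.1, hz'.1, sub_self] at h1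
      exact (mul_eq_zero.1 h1.symm).resolve_left (pow_ne_zero _ hπ0)
    have hz'e : z' = fun k => z k + π ^ v * w k := by
      funext k
      rw [← hw k]
      ring
    obtain ⟨r, hr⟩ := taylor (P i) (π ^ v) z w
    obtain ⟨r0, hr0⟩ := taylor (P i0) (π ^ v) z w
    obtain ⟨a, ha⟩ := hL z hz w hw0 i
    obtain ⟨b, hb⟩ := (hs z hz).2 i
    simp only [Pi.smul_apply, smul_eq_mul] at hb
    have hu := (hs z hz).1
    have hu' := (hs z' hz').1
    have e1 : pt P z' i = pt P z' i0 * Φ z' i := by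
      have := congrFun (hΦs z' hz') i
      rwa [Pi.smul_apply, smul_eq_mul] at this
    have e2 : pt P z i = pt P z i0 * Φ z i := by
      have := congrFun (hΦs z hz) i
      rwa [Pi.smul_apply, smul_eq_mul] at this
    have e3 : pt P z' i = pt P z i + π ^ v * (∑ j, eval z (pderiv j (P i)) * w j) +
        (π ^ v) ^ 2 * r := by
      rw [hz'e]
      exact hr
    have e4 : pt P z' i0 = pt P z i0 + π ^ v * (∑ j, eval z (pderiv j (P i0)) * w j) +
        (π ^ v) ^ 2 * r0 := by
      rw [hz'e]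
      exact hr0
    set s := pt P z i0 with hsdef
    set s' := pt P z' i0 with hs'def
    set L := ∑ j, eval z (pderiv j (P i)) * w j with hLdef
    set L0 := ∑ j, eval z (pderiv j (P i0)) * w j with hL0def
    have hsplit : π ^ (v + e + 1) = π ^ v * π ^ (e + 1) := by
      rw [add_assoc, pow_add]
    obtain ⟨k, hk⟩ : ∃ k, v = e + 1 + k := ⟨v - (e + 1), by omega⟩
    have hpv : π ^ v = π ^ (e + 1) * π ^ k := by rw [hk, pow_add]
    have h2 : π ^ (2 * (e + 1)) = π ^ (e + 1) * π ^ (e + 1) := by rw [two_mul, pow_add]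
    have hmul : π ^ (v + e + 1) ∣ s' * (s * ((Φ z' i - Φ z i) - (z' i - z i))) := by
      rw [hw i, hsplit]
      rw [h2] at hb
      have key : s' * (s * ((Φ z' i - Φ z i) - π ^ v * w i)) =
          π ^ v * π ^ (e + 1) * (s * a - L0 * (π ^ (e + 1) * b) +
            π ^ k * (s * r - r0 * pt P z i - s * w i * (L0 + π ^ v * r0))) := by
        have h5 : s' * (s * ((Φ z' i - Φ z i) - π ^ v * w i)) =
            s * pt P z' i - s' * pt P z i - s' * s * π ^ v * w i := by
          rw [e1, e2]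
          ring
        rw [h5, e3, e4]
        linear_combination (π ^ v * s) * ha - (π ^ v * L0) * hb +
          (π ^ v * (s * r - r0 * pt P z i - s * w i * (L0 + π ^ v * r0))) * hpv
      rw [key]
      exact Dvd.intro _ rfl
    exact (hu.dvd_mul_left).1 ((hu'.dvd_mul_left).1 hmul)
  -- the iterates
  obtain ⟨c, hc, hcx⟩ := hper
  have hiter : ∀ k, Φ^[k] x ∈ U ∧ ∃ a : A, IsUnit a ∧ (pt P)^[k] x = a • Φ^[k] x := by
    intro k
    induction k with
    | zero => exact ⟨hxU, 1, isUnit_one, (one_smul A x).symm⟩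
    | succ k ih =>
      obtain ⟨hkU, a, ha, hk⟩ := ih
      refine ⟨?_, a ^ D * pt P (Φ^[k] x) i0, (ha.pow D).mul (hs _ hkU).1, ?_⟩
      · rw [Function.iterate_succ_apply']
        exact hΦU _ hkU
      · rw [Function.iterate_succ_apply', hk, pt_smul' hP, hΦs _ hkU, smul_smul,
          Function.iterate_succ_apply']
        congr 2
        rw [← hΦs _ hkU]
  obtain ⟨hmU, a, ha, hma⟩ := hiter m
  have hac : a = c := by
    have h1 := congrFun hma i0
    rw [hcx, Pi.smul_apply, Pi.smul_apply, hx, hmU.1] at h1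
    simpa using h1.symm
  have hfix : Φ^[m] x = x := by
    rw [hcx, hac] at hma
    have h1 : c • (Φ^[m] x) = c • x := hma.symm
    exact hc.smul_left_cancel.1 h1
  have hfin := h A π hπ n e hq U Φ hΦU hest x hxU
    (fun i => (pow_dvd_pow π (by omega)).trans (hΦc x hxU i)) m hm hfix
  refine ⟨pt P x i0, (hs x hxU).1, ?_⟩
  have h1 := hΦs x hxU
  rwa [hfin] at h1

end NormAux

open NormAux in
theorem taskNorm (h : TaskAbs) : TaskNorm := by
  intro A _ _ _ π hπ n e hq D P hP x hx hcong m hm hper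
  obtain ⟨i0, hi0⟩ := hx
  obtain ⟨u, hu⟩ := hi0
  set v : A := ((u⁻¹ : Aˣ) : A) with hv
  have huv : (u : A) * v = 1 := u.mul_inv
  have hvU : IsUnit v := (u⁻¹).isUnit
  have hxx : x = (u : A) • (v • x) := by rw [smul_smul, huv, one_smul]
  have h1 := NormAux.main h hπ n e hq D P hP (v • x) i0
    (by rw [Pi.smul_apply, smul_eq_mul, ← hu, mul_comm, huv]) ?_ m hm ?_
  · obtain ⟨c, hc, h2⟩ := h1
    refine ⟨(u : A) ^ D * c * v, ((u.isUnit.pow D).mul hc).mul hvU, ?_⟩
    calc pt P x = pt P ((u : A) • (v • x)) := by rw [← hxx]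
      _ = (u : A) ^ D • pt P (v • x) := pt_smul' hP _ _
      _ = _ := by rw [h2, smul_smul, smul_smul]
  · intro z hz
    obtain ⟨l, hl, h2⟩ := hcong ((u : A) • z) (by
      intro i
      have h3 : ((u : A) • z) i - x i = (u : A) * (z i - (v • x) i) := by
        rw [Pi.smul_apply, Pi.smul_apply, smul_eq_mul, smul_eq_mul, mul_sub, ← mul_assoc, huv,
          one_mul]
      rw [h3]
      exact (hz i).mul_left _)
    refine ⟨v ^ D * (l * u), (hvU.pow D).mul (hl.mul u.isUnit), fun i => ?_⟩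
    have h3 := h2 i
    rw [pt_smul' hP] at h3
    simp only [Pi.smul_apply, smul_eq_mul] at h3 ⊢
    have h4 : pt P z i - v ^ D * (l * u) * z i =
        v ^ D * ((u : A) ^ D * pt P z i - l * (u * z i)) := by
      have h5 : v ^ D * (u : A) ^ D = 1 := by rw [← mul_pow, mul_comm v, huv, one_pow]
      linear_combination (-(pt P z i)) * h5
    rw [h4]
    exact h3.mul_left _
  · obtain ⟨c, hc, h2⟩ := hper
    obtain ⟨a, ha, h3⟩ := iter_smul hP v hvU x m
    refine ⟨a * c * u, (ha.mul hc).mul u.isUnit, ?_⟩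
    rw [h3, h2, smul_smul, smul_smul]
    congr 1
    rw [mul_assoc (a * c), huv, mul_one]

end H294UB
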