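import Mathlib
import Pool.Agent.H294UB.Stmts
import Pool.Agent.H294UB.Iter

set_option autoImplicit false

/-!
# Task Perm: modulo `π ^ j`, the `w!`-th iterate fixes all points with periodic reduction
-/

namespace H294UB

open MvPolynomial Pool.Agent.H936R2 Pool.Agent.H927R2.RD H294DM

namespace PermAux

open IterAux

variable {A : Type} [CommRing A]

lemma iter_unit {N d : ℕ} {π : A} (F : Fin (N + 1) → MvPolynomial (Fin (N + 1)) ℤ)
    (hF : ∀ i, (F i).IsHomogeneous d) {j n : ℕ} {x : Fin (N + 1) → A}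
    (h : ∃ c : A, IsUnit c ∧ Cong π j ((ev A F)^[n] x) (c • x)) (k : ℕ) :
    ∃ c : A, IsUnit c ∧ Cong π j ((ev A F)^[n * k] x) (c • x) := by
  obtain ⟨c, hc, h⟩ := h
  induction k with
  | zero => exact ⟨1, isUnit_one, fun i => by simp⟩
  | succ k ih =>
    obtain ⟨b, hb, ih⟩ := ih
    refine ⟨b ^ d ^ n * c, (hb.pow _).mul hc, ?_⟩
    have e : (ev A F)^[n * (k + 1)] x = (ev A F)^[n] ((ev A F)^[n * k] x) := by
      rw [← Function.iterate_add_apply]
      congr 2
      ring
    rw [e]
    have h1 := cong_iter F ih n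
    rw [iter_smul F hF] at h1
    have h2 := cong_smul h (b ^ d ^ n)
    rw [mul_smul]
    exact cong_trans h1 h2

end PermAux

open IterAux PermAux

theorem taskPerm (h : TaskIter) : TaskPerm := by
  intro A _ _ _ π hπ N d F hF hG j w hfin hw hj z hz hper
  classical
  haveI := hfin
  letI : Fintype (A ⧸ Ideal.span {π ^ j}) := Fintype.ofFinite _
  let f : ℕ → (Fin (N + 1) → A ⧸ Ideal.span {π ^ j}) :=
    fun t i => Ideal.Quotient.mk _ ((ev A F)^[t] z i)
  have hcard : (Finset.univ : Finset (Fin (N + 1) → A ⧸ Ideal.span {π ^ j})).card <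
      (Finset.range (w + 1)).card := by
    rw [Finset.card_range, Finset.card_univ, Fintype.card_fun, Fintype.card_fin,
      ← Nat.card_eq_fintype_card]
    omega
  obtain ⟨a, ha, b, hb, hab, hfab⟩ := Finset.exists_ne_map_eq_of_card_lt_of_maps_to hcard
    (f := f) (fun _ _ => Finset.mem_coe.2 (Finset.mem_univ _))
  have main : ∀ a b : ℕ, a ≤ w → b ≤ w → a < b → f a = f b →
      ∃ l : A, IsUnit l ∧ Cong π j ((ev A F)^[w.factorial] z) (l • z) := by
    intro a b ha hb hab hf
    have hcong : Cong π j ((ev A F)^[b] z) ((ev A F)^[a] z) := by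
      intro i
      have h2 := congrFun hf i
      have h3 : Ideal.Quotient.mk (Ideal.span {π ^ j}) ((ev A F)^[b] z i) =
        Ideal.Quotient.mk (Ideal.span {π ^ j}) ((ev A F)^[a] z i) := h2.symm
      rw [Ideal.Quotient.eq, Ideal.mem_span_singleton] at h3
      exact h3
    have hcong1 : Cong π 1 ((ev A F)^[b] z) ((ev A F)^[a] z) :=
      fun i => (pow_dvd_pow π hj).trans (hcong i)
    obtain ⟨m, hm, c, hc, hper'⟩ := id hper
    obtain ⟨c1, hc1, h1⟩ := iter_unit F hF ⟨c, hc, hper'⟩ a
    obtain ⟨n, hn⟩ : ∃ n, b = a + n := ⟨b - a, by omega⟩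
    have hn0 : 0 < n := by omega
    have h2 : Cong π 1 ((ev A F)^[m * a] ((ev A F)^[n] z)) (c1 ^ d ^ n • (ev A F)^[n] z) := by
      rw [← Function.iterate_add_apply, Nat.add_comm (m * a) n, Function.iterate_add_apply,
        ← iter_smul F hF]
      exact cong_iter F h1 n
    have h3 : Cong π 1 ((ev A F)^[m * a] ((ev A F)^[n] z)) ((ev A F)^[m * a] z) := by
      have hma : a ≤ m * a := Nat.le_mul_of_pos_left a hm
      obtain ⟨q, hq⟩ : ∃ q, m * a = q + a := ⟨m * a - a, by omega⟩
      have e1 : (ev A F)^[m * a] ((ev A F)^[n] z) = (ev A F)^[q] ((ev A F)^[b] z) := by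
        rw [← Function.iterate_add_apply, ← Function.iterate_add_apply, hq, hn, add_assoc]
      have e2 : (ev A F)^[m * a] z = (ev A F)^[q] ((ev A F)^[a] z) := by
        rw [← Function.iterate_add_apply, hq]
      rw [e1, e2]
      exact cong_iter F hcong1 _
    have h4 : Cong π 1 (c1 ^ d ^ n • (ev A F)^[n] z) (c1 • z) :=
      cong_trans (cong_symm h2) (cong_trans h3 h1)
    obtain ⟨b', hb'⟩ := (hc1.pow (d ^ n)).exists_left_inv
    have h5 : Cong π 1 ((ev A F)^[n] z) ((b' * c1) • z) := by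
      have := cong_smul h4 b'
      rw [smul_smul, hb', one_smul, smul_smul] at this
      exact this
    have hb'u : IsUnit b' := IsUnit.of_mul_eq_one _ hb'
    obtain ⟨u, hu, h6⟩ := h A π hπ N d F hF hG j a ((ev A F)^[n] z) z hz hper
      (b' * c1) (hb'u.mul hc1) h5 1 (by
        rw [one_smul, ← Function.iterate_add_apply, ← hn]
        exact hcong)
    have hdvd : n ∣ w.factorial := Nat.dvd_factorial hn0 (by omega)
    obtain ⟨k, hk⟩ := hdvd
    rw [hk]
    exact iter_unit F hF ⟨u, hu, h6⟩ k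
  have ha' : a ≤ w := by have := Finset.mem_range.1 (Finset.mem_coe.1 ha); omega
  have hb' : b ≤ w := by have := Finset.mem_range.1 (Finset.mem_coe.1 hb); omega
  rcases lt_or_gt_of_ne hab with h' | h'
  · exact main a b ha' hb' h' hfab
  · exact main b a hb' ha' h' hfab.symm

end H294UB
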