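import Mathlib
import Pool.Agent.H294UB.Stmts

set_option autoImplicit false

namespace H294UB

open MvPolynomial Pool.Agent.H936R2 Pool.Agent.H927R2.RD H294DM

theorem res_dvd_eval_sub {A : Type} [CommRing A] {σ : Type} (r : A) (x y : σ → A)
    (h : ∀ i, r ∣ x i - y i) (P : MvPolynomial σ A) : r ∣ eval x P - eval y P := by
  induction P using MvPolynomial.induction_on with
  | C a => simp
  | add p q hp hq =>
    have := dvd_add hp hq
    rw [map_add, map_add]
    convert this using 1
    ring
  | mul_X p i hp =>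
    rw [map_mul, map_mul, eval_X, eval_X]
    have h1 : eval x p * x i - eval y p * y i =
        (eval x p - eval y p) * x i + eval y p * (x i - y i) := by ring
    rw [h1]
    exact dvd_add (hp.mul_right _) ((h i).mul_left _)

theorem res_ev_cong {A : Type} [CommRing A] {N : ℕ} (π : A) (j : ℕ)
    (F : Fin (N + 1) → MvPolynomial (Fin (N + 1)) ℤ) (x y : Fin (N + 1) → A)
    (h : Cong π j x y) : Cong π j (ev A F x) (ev A F y) := by
  intro i
  exact res_dvd_eval_sub (π ^ j) x y h (overR A F i)

theorem res_eval_smul {A : Type} [CommRing A] {σ : Type} (P : MvPolynomial σ A)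
    (d : ℕ) (hP : P.IsHomogeneous d) (c : A) (x : σ → A) :
    eval (c • x) P = c ^ d * eval x P := by
  classical
  rw [eval_eq, eval_eq, Finset.mul_sum]
  refine Finset.sum_congr rfl fun m hm => ?_
  have h1 : ∑ i ∈ m.support, m i = d := by
    have := hP (mem_support_iff.1 hm)
    rw [Finsupp.weight_apply] at this
    simpa [Finsupp.sum] using this
  have h2 : ∏ i ∈ m.support, (c • x) i ^ m i = c ^ d * ∏ i ∈ m.support, x i ^ m i := by
    rw [← h1, ← Finset.prod_pow_eq_pow_sum, ← Finset.prod_mul_distrib]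
    refine Finset.prod_congr rfl fun i _ => ?_
    rw [Pi.smul_apply, smul_eq_mul, mul_pow]
  rw [h2]
  ring

theorem res_ev_smul {A : Type} [CommRing A] {N d : ℕ}
    (F : Fin (N + 1) → MvPolynomial (Fin (N + 1)) ℤ) (hF : ∀ i, (F i).IsHomogeneous d)
    (c : A) (x : Fin (N + 1) → A) : ev A F (c • x) = c ^ d • ev A F x := by
  funext i
  rw [Pi.smul_apply, smul_eq_mul]
  exact res_eval_smul (overR A F i) d ((hF i).map _) c x

theorem res_rper_step {A : Type} [CommRing A] {N d : ℕ} (π : A)
    (F : Fin (N + 1) → MvPolynomial (Fin (N + 1)) ℤ) (hF : ∀ i, (F i).IsHomogeneous d)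
    (y : Fin (N + 1) → A) (h : RPer π F y) : RPer π F (ev A F y) := by
  obtain ⟨m, hm, c, hc, h⟩ := h
  refine ⟨m, hm, c ^ d, hc.pow d, ?_⟩
  rw [← res_ev_smul F hF, ← Function.iterate_succ_apply, Function.iterate_succ_apply']
  exact res_ev_cong π 1 F _ _ h

theorem res_rper_iter {A : Type} [CommRing A] {N d : ℕ} (π : A)
    (F : Fin (N + 1) → MvPolynomial (Fin (N + 1)) ℤ) (hF : ∀ i, (F i).IsHomogeneous d)
    (y : Fin (N + 1) → A) (h : RPer π F y) (t : ℕ) : RPer π F ((ev A F)^[t] y) := by
  induction t with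
  | zero => exact h
  | succ t ih => rw [Function.iterate_succ_apply']; exact res_rper_step π F hF _ ih

theorem taskRes : TaskRes := by
  intro A _ _ _ π _ N d F hF hG w hfin hw z hz
  have hprim : ∀ t : ℕ, Prim ((ev A F)^[t] z) := by
    intro t
    induction t with
    | zero => exact hz
    | succ t ih => rw [Function.iterate_succ_apply']; exact hG.1 _ ih
  refine ⟨hprim w, ?_⟩
  classical
  haveI := hfin
  letI : Fintype (A ⧸ Ideal.span {π ^ 1}) := Fintype.ofFinite _
  let f : ℕ → (Fin (N + 1) → A ⧸ Ideal.span {π ^ 1}) :=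
    fun t i => Ideal.Quotient.mk _ ((ev A F)^[t] z i)
  have hcard : (Finset.univ : Finset (Fin (N + 1) → A ⧸ Ideal.span {π ^ 1})).card <
      (Finset.range (w + 1)).card := by
    rw [Finset.card_range, Finset.card_univ, Fintype.card_fun, Fintype.card_fin,
      ← Nat.card_eq_fintype_card]
    omega
  obtain ⟨a, ha, b, hb, hab, hfab⟩ := Finset.exists_ne_map_eq_of_card_lt_of_maps_to hcard
    (f := f) (fun _ _ => Finset.mem_coe.2 (Finset.mem_univ _))
  have main : ∀ a b : ℕ, a ≤ w → b ≤ w → a < b → f a = f b → RPer π F ((ev A F)^[w] z) := by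
    intro a b ha hb hab hf
    have h1 : RPer π F ((ev A F)^[a] z) := by
      refine ⟨b - a, by omega, 1, isUnit_one, fun i => ?_⟩
      rw [one_smul, ← Function.iterate_add_apply, Nat.sub_add_cancel hab.le]
      have h2 := congrFun hf i
      have h3 : Ideal.Quotient.mk (Ideal.span {π ^ 1}) ((ev A F)^[b] z i) =
        Ideal.Quotient.mk (Ideal.span {π ^ 1}) ((ev A F)^[a] z i) := h2.symm
      rw [Ideal.Quotient.eq, Ideal.mem_span_singleton] at h3
      exact h3
    have h2 := res_rper_iter π F hF _ h1 (w - a)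
    rw [← Function.iterate_add_apply, Nat.sub_add_cancel ha] at h2
    exact h2
  have ha' : a ≤ w := by have := Finset.mem_range.1 (Finset.mem_coe.1 ha); omega
  have hb' : b ≤ w := by have := Finset.mem_range.1 (Finset.mem_coe.1 hb); omega
  rcases lt_or_gt_of_ne hab with h | h
  · exact main a b ha' hb' h hfab
  · exact main b a hb' ha' h hfab.symm

end H294UB
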