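import Pool.Agent.H294UB.Stmts

set_option autoImplicit false

/-! Task Tail: a preperiodic point with periodic reduction is periodic. -/

namespace H294UB

namespace TailP

open MvPolynomial Pool.Agent.H936R2 Pool.Agent.H927R2.RD H294DM

variable {A : Type} [CommRing A] {N : ℕ}

lemma ev_smul (F : Fin (N + 1) → MvPolynomial (Fin (N + 1)) ℤ) (d : ℕ)
    (hF : ∀ i, (F i).IsHomogeneous d) (c : A) (x : Fin (N + 1) → A) :
    ev A F (c • x) = c ^ d • ev A F x := by
  funext i
  have h1 : (overR A F i).IsHomogeneous d := by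
    unfold overR
    exact (hF i).map _
  simp only [ev, pt, Pi.smul_apply, smul_eq_mul]
  rw [eval_eq, eval_eq, Finset.mul_sum]
  refine Finset.sum_congr rfl fun μ hμ => ?_
  have h2 : ∑ j, μ j = d := by
    have h3 := h1 (mem_support_iff.1 hμ)
    rw [← h3]
    simp [Finsupp.weight_apply, Finsupp.sum_fintype]
  have h4 : ∏ j ∈ μ.support, (c • x) j ^ μ j = c ^ d * ∏ j ∈ μ.support, x j ^ μ j := by
    simp only [Pi.smul_apply, smul_eq_mul, mul_pow, Finset.prod_mul_distrib]
    congr 1
    rw [Finset.prod_pow_eq_pow_sum, ← h2]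
    congr 1
    exact Finset.sum_subset (Finset.subset_univ _) fun j _ hj => Finsupp.notMem_support_iff.1 hj
  rw [h4]
  ring

lemma iter_smul (F : Fin (N + 1) → MvPolynomial (Fin (N + 1)) ℤ) (d : ℕ)
    (hF : ∀ i, (F i).IsHomogeneous d) (m : ℕ) (c : A) (x : Fin (N + 1) → A) :
    (ev A F)^[m] (c • x) = c ^ d ^ m • (ev A F)^[m] x := by
  induction m with
  | zero => simp
  | succ m ih =>
    rw [Function.iterate_succ_apply', Function.iterate_succ_apply', ih, ev_smul F d hF, ← pow_mul,
      pow_succ]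

lemma cong_ev (F : Fin (N + 1) → MvPolynomial (Fin (N + 1)) ℤ) (π : A) (j : ℕ)
    (x y : Fin (N + 1) → A) (h : Cong π j x y) : Cong π j (ev A F x) (ev A F y) := by
  intro i
  have h1 : (Ideal.Quotient.mk (Ideal.span {π ^ j})) (eval x (overR A F i)) =
      (Ideal.Quotient.mk (Ideal.span {π ^ j})) (eval y (overR A F i)) := by
    rw [← eval₂_id, ← eval₂_id, hom_eval₂, hom_eval₂]
    congr 1
    funext l
    rw [Ideal.Quotient.eq, Ideal.mem_span_singleton]
    exact h l
  rw [Ideal.Quotient.eq, Ideal.mem_span_singleton] at h1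
  exact h1

lemma cong_iter (F : Fin (N + 1) → MvPolynomial (Fin (N + 1)) ℤ) (π : A) (j m : ℕ)
    (x y : Fin (N + 1) → A) (h : Cong π j x y) :
    Cong π j ((ev A F)^[m] x) ((ev A F)^[m] y) := by
  induction m with
  | zero => exact h
  | succ m ih =>
    rw [Function.iterate_succ_apply', Function.iterate_succ_apply']
    exact cong_ev F π j _ _ ih

lemma Cong.trans' {n : ℕ} {π : A} {j : ℕ} {x y z : Fin n → A} (h1 : Cong π j x y)
    (h2 : Cong π j y z) : Cong π j x z := fun i => by
  have := dvd_add (h1 i) (h2 i)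
  rwa [sub_add_sub_cancel] at this

lemma Cong.smul' {n : ℕ} {π : A} {j : ℕ} {x y : Fin n → A} (c : A) (h1 : Cong π j x y) :
    Cong π j (c • x) (c • y) := fun i => by
  have := Dvd.dvd.mul_left (h1 i) c
  rwa [mul_sub] at this

end TailP

open MvPolynomial Pool.Agent.H936R2 Pool.Agent.H927R2.RD H294DM TailP in
theorem taskTail (h : TaskIter) : TaskTail := by
  intro A _ _ _ π hπ N d F hF hgood x hx hper ⟨a, b, hab, c, hc, hcab⟩
  obtain ⟨r, hr, c', hc', hcong⟩ := hper
  -- tail relation
  set l0 := b - a with hl0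
  have hl0pos : 0 < l0 := by omega
  have hrel : ∀ t, a ≤ t → ∃ u : A, IsUnit u ∧ (ev A F)^[t + l0] x = u • (ev A F)^[t] x := by
    intro t ht
    refine ⟨c ^ d ^ (t - a), hc.pow _, ?_⟩
    have e1 : t + l0 = (t - a) + b := by omega
    have e2 : t = (t - a) + a := by omega
    rw [e1, Function.iterate_add_apply, hcab, iter_smul F d hF]
    conv_rhs => rw [e2, Function.iterate_add_apply]
    simp
  have hrel2 : ∀ s t, a ≤ t → ∃ u : A, IsUnit u ∧
      (ev A F)^[t + s * l0] x = u • (ev A F)^[t] x := by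
    intro s
    induction s with
    | zero => intro t _; exact ⟨1, isUnit_one, by simp⟩
    | succ s ih =>
      intro t ht
      obtain ⟨u, hu, hu2⟩ := ih t ht
      obtain ⟨v, hv, hv2⟩ := hrel (t + s * l0) (by omega)
      refine ⟨v * u, hv.mul hu, ?_⟩
      rw [add_mul, one_mul, ← add_assoc, hv2, hu2, smul_smul]
  -- reduction
  have hred : ∀ s, ∃ u : A, IsUnit u ∧ Cong π 1 ((ev A F)^[s * r] x) (u • x) := by
    intro s
    induction s with
    | zero => exact ⟨1, isUnit_one, by intro i; simp⟩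
    | succ s ih =>
      obtain ⟨u, hu, hu2⟩ := ih
      refine ⟨u ^ d ^ r * c', (hu.pow _).mul hc', ?_⟩
      have e1 : (s + 1) * r = r + s * r := by ring
      rw [e1, Function.iterate_add_apply]
      have e2 := cong_iter F π 1 r _ _ hu2
      rw [iter_smul F d hF] at e2
      refine Cong.trans' e2 ?_
      rw [← smul_smul]
      exact Cong.smul' _ hcong
  set t := r * l0 * (a + 1) with ht
  have hta : a ≤ t := by
    rw [ht]
    nlinarith [Nat.mul_pos hr hl0pos]
  have htpos : 0 < t := by positivity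
  set Q := (ev A F)^[t] x with hQ
  obtain ⟨l, hl, hl2⟩ := hrel2 (r * (a + 1)) t hta
  have hQt : (ev A F)^[t] Q = l • (ev A F)^[t] x := by
    rw [← hl2, hQ, ← Function.iterate_add_apply]
    congr 2
    rw [ht]
    ring
  obtain ⟨c2, hc2, hc3⟩ := hred (l0 * (a + 1))
  have e3 : l0 * (a + 1) * r = t := by rw [ht]; ring
  rw [e3, ← hQ] at hc3
  have hu : ∀ j, ∃ u : A, IsUnit u ∧ Cong π j Q (u • x) := by
    intro j
    refine h A π hπ N d F hF hgood j t Q x hx ⟨r, hr, c', hc', hcong⟩ c2 hc2 hc3 l ?_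
    rw [hQt]
    intro i
    simp
  obtain ⟨i0, hi0⟩ := hx
  have hzero : ∀ i, Q i * x i0 - Q i0 * x i = 0 := by
    intro i
    by_contra hne
    obtain ⟨n, hn⟩ := FiniteMultiplicity.of_not_isUnit hπ.not_isUnit hne
    apply hn
    obtain ⟨u, _, hu2⟩ := hu (n + 1)
    have e4 := hu2 i
    have e5 := hu2 i0
    simp only [Pi.smul_apply, smul_eq_mul] at e4 e5
    have e6 : Q i * x i0 - Q i0 * x i = (Q i - u * x i) * x i0 - (Q i0 - u * x i0) * x i := by ring
    rw [e6]
    exact dvd_sub (Dvd.dvd.mul_right e4 _) (Dvd.dvd.mul_right e5 _)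
  obtain ⟨y, hy⟩ := hi0.exists_right_inv
  refine ⟨t, htpos, Q i0 * y, ?_, ?_⟩
  · have e7 : IsUnit (Q i0) := by
      have e8 := hc3 i0
      rw [pow_one] at e8
      by_contra hnon
      have e9 : c2 * x i0 ∈ nonunits A := by
        have e10 : c2 * x i0 = Q i0 - (Q i0 - (c2 • x) i0) := by
          simp
        rw [e10]
        have e11 : Q i0 - (c2 • x) i0 ∈ IsLocalRing.maximalIdeal A :=
          Ideal.mem_of_dvd _ e8 ((IsLocalRing.mem_maximalIdeal π).2 hπ.not_isUnit)
        exact (IsLocalRing.mem_maximalIdeal _).1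
          (Ideal.sub_mem _ ((IsLocalRing.mem_maximalIdeal _).2 hnon) e11)
      exact e9 (hc2.mul hi0)
    exact e7.mul (IsUnit.of_mul_eq_one (x i0) (by rw [mul_comm]; exact hy))
  · funext i
    simp only [Pi.smul_apply, smul_eq_mul]
    have e12 := hzero i
    calc Q i = Q i * (x i0 * y) := by rw [hy, mul_one]
      _ = Q i0 * y * x i := by linear_combination y * e12

end H294UB
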